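import Mathlib

open Set Metric TopologicalSpace

namespace Pool.Agent.Helper302.CT

/-- The hyperspace of all subcontinua of `X` (nonempty compact connected subsets), with the
Hausdorff metric. -/
abbrev Hyper (X : Type) [MetricSpace X] := {K : NonemptyCompacts X // IsConnected (K : Set X)}

/-- The geometric realisation of a finite graph on the vertices `0, …, n-1` as a one-dimensional
polyhedron in `ℝⁿ`: the union of the basis vectors and of the segments joining the basis vectors of
adjacent vertices. -/
def polyhedron {n : ℕ} (H : SimpleGraph (Fin n)) : Set (Fin n → ℝ) :=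
  {x | ∃ u v : Fin n, (u = v ∨ H.Adj u v) ∧
    x ∈ segment ℝ (Pi.single u (1 : ℝ)) (Pi.single v (1 : ℝ))}

/-- Tree-like: for every `ε > 0` there is a continuous surjection onto a tree (the polyhedron of a
finite tree graph) all of whose point preimages have diameter less than `ε`. -/
def IsTreeLike (X : Type) [MetricSpace X] : Prop :=
  ∀ ε : ℝ, 0 < ε → ∃ (n : ℕ) (H : SimpleGraph (Fin n)), H.IsTree ∧
    ∃ g : X → ↥(polyhedron H), Continuous g ∧ Function.Surjective g ∧
      ∀ y, Metric.diam (g ⁻¹' {y}) < ε

/-- The fixed point property. -/
def FixedPointProperty (Y : Type) [TopologicalSpace Y] : Prop :=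
  ∀ f : Y → Y, Continuous f → ∃ y, f y = y

end Pool.Agent.Helper302.CT
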