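import Pool.Agent.Helper302.CT.Defs

open Set Metric TopologicalSpace

noncomputable section

namespace Pool.Agent.Helper302.CT

/-- ambient space -/
abbrev E := (Fin 3 → ℝ) × ℝ

def G (c : ℝ) : ℝ := max 0 (1 - 2 / Real.sqrt 3 * Real.sqrt (1 - (max c 0) ^ 2))

/-- the three directions -/
def ph (i : Fin 3) : ℝ := 2 * Real.pi / 3 * ((i : ℕ) : ℝ)

/-- traversal of the boundary of the triod -/
def tp (s : ℝ) : Fin 3 → ℝ := fun i => G (Real.cos (s - ph i))

/-- the triod -/
def tset : Set (Fin 3 → ℝ) :=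
  {t | (∀ i, 0 ≤ t i ∧ t i ≤ 1) ∧ ∃ j, ∀ i, i ≠ j → t i = 0}

/-- the continuum: triod and a ray winding around it -/
def Xset : Set E :=
  {x | (x.2 = 0 ∧ x.1 ∈ tset) ∨ (0 < x.2 ∧ x.2 ≤ 1 ∧ x.1 = tp (1 / x.2 - 1))}

def Wset (α β : ℝ) : Set E := {x | x ∈ Xset ∧ β ≤ x.2 ∧ x.2 ≤ α}

def KTset (D : Fin 3 → ℝ) : Set E := {x | x.2 = 0 ∧ x.1 ∈ tset ∧ ∀ i, x.1 i ≤ 1 - D i}

def lam (σ : ℝ) : ℝ := max 0 (min 1 (min (8 * σ) (8 - 8 * σ)))
def uu (σ : ℝ) : ℝ := max 0 (1 - 8 * σ)
def al (σ : ℝ) : ℝ := Real.pi * max (-1) (min 1 (8 * σ - 4))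
def eta (σ : ℝ) : ℝ := Real.pi / 2 * max 0 (min 1 (min (8 * σ - 1) (7 - 8 * σ)))

def sg (δ : Fin 3 → ℝ) : ℝ := δ 0 + δ 1 + δ 2
def ze (δ : Fin 3 → ℝ) : ℂ := ∑ i, ((δ i : ℝ) : ℂ) * Complex.exp (((ph i : ℝ) : ℂ) * Complex.I)
def cc (δ : Fin 3 → ℝ) (i : Fin 3) : ℝ :=
  (Complex.exp (((al (sg δ) : ℝ) : ℂ) * Complex.I) *
    (ze δ / ((max ‖ze δ‖ (sg δ / 2) : ℝ) : ℂ)) *
    Complex.exp (-((ph i : ℝ) : ℂ) * Complex.I)).re
def Dd (δ : Fin 3 → ℝ) (i : Fin 3) : ℝ :=
  1 - G (Real.cos (max 0 (eta (sg δ) - Real.arccos (cc δ i))))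
def Fset (δ : Fin 3 → ℝ) : Set E :=
  if sg δ ≤ 1 / 8 then Wset (uu (sg δ)) 0 else KTset (Dd δ)

/-- window `[a, b]` of the ray, `α = 1/(1+a)`, `β = 1/(1+b)` -/
def aa (α : ℝ) : ℝ := 1 / α - 1
def LL (α β : ℝ) : ℝ := 1 / max β (α / (1 + 2 * Real.pi * α)) - 1 / α
def hh (α β : ℝ) : ℝ := Real.pi - LL α β / 2
def pp (α β : ℝ) : ℝ := aa α + LL α β / 2 + Real.pi
/-- missing amounts of a window -/
def dw (α β : ℝ) (i : Fin 3) : ℝ :=
  1 - G (Real.cos (max 0 (hh α β - Real.arccos (Real.cos (pp α β - ph i)))))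
def err (α β : ℝ) : ℝ :=
  Complex.arg (ze (dw α β) * Complex.exp (-((pp α β : ℝ) : ℂ) * Complex.I))
def sh (α β : ℝ) : ℝ := max (sg (dw α β)) (3 / 8 * (1 - aa α))
def ast (α β : ℝ) : ℝ :=
  max 0 (aa α - hh α β + al (sh α β) + lam (sg (dw α β)) * err α β + eta (sh α β))
def bst (α β : ℝ) : ℝ := ast α β + 2 * Real.pi - 2 * eta (sh α β)
def Q1 (α β : ℝ) : ℝ := max (uu (sh α β)) (1 / (1 + ast α β))
def Q2 (α β : ℝ) : ℝ := lam (sh α β) / (1 + bst α β)

def dl (K : Set E) (i : Fin 3) : ℝ := 1 - sSup ((fun x : E => x.1 i) '' K)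
def mz (K : Set E) : ℝ := sSup (Prod.snd '' K)
def nz (K : Set E) : ℝ := sInf (Prod.snd '' K)

/-- the fixed point free map of the hyperspace -/
def fset (K : Set E) : Set E :=
  if mz K ≤ 0 then Fset (dl K) else Wset (Q1 (mz K) (nz K)) (Q2 (mz K) (nz K))

/-- the hyperspace of subcontinua of `Xset`, inside the ambient space -/
abbrev CS := {K : NonemptyCompacts E // IsConnected (K : Set E) ∧ (K : Set E) ⊆ Xset}

/-! ### lemmas -/

theorem G_nonneg (c : ℝ) : 0 ≤ G c := le_max_left _ _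

section J00
theorem G_le_one (c : ℝ) : G c ≤ 1 := by
  unfold G
  apply max_le (by norm_num)
  have : 0 ≤ 2 / Real.sqrt 3 * Real.sqrt (1 - (max c 0) ^ 2) := by positivity
  linarith

theorem G_one : G 1 = 1 := by
  unfold G
  have h : max (1 : ℝ) 0 = 1 := max_eq_left (by norm_num)
  rw [h]
  norm_num

theorem G_eq_zero {c : ℝ} (h : c ≤ 1 / 2) : G c = 0 := by
  unfold G
  apply max_eq_left
  have h0 : 0 ≤ max c 0 := le_max_right _ _
  have h1 : max c 0 ≤ 1 / 2 := max_le h (by norm_num)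
  have h2 : (Real.sqrt 3 / 2) ≤ Real.sqrt (1 - (max c 0) ^ 2) := by
    apply Real.le_sqrt_of_sq_le
    rw [div_pow, Real.sq_sqrt (by norm_num : (0 : ℝ) ≤ 3)]
    nlinarith
  have h3 : 0 < Real.sqrt 3 := Real.sqrt_pos.mpr (by norm_num)
  have h4 : 1 ≤ 2 / Real.sqrt 3 * Real.sqrt (1 - (max c 0) ^ 2) := by
    calc (1 : ℝ) = 2 / Real.sqrt 3 * (Real.sqrt 3 / 2) := by
          field_simp
      _ ≤ _ := mul_le_mul_of_nonneg_left h2 (by positivity)
  linarith

theorem G_mono {c d : ℝ} (h : c ≤ d) (h1 : d ≤ 1) : G c ≤ G d := by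
  unfold G
  apply max_le_max le_rfl
  have h0 : 0 ≤ max c 0 := le_max_right _ _
  have h2 : max c 0 ≤ max d 0 := max_le_max h le_rfl
  have h3 : Real.sqrt (1 - (max d 0) ^ 2) ≤ Real.sqrt (1 - (max c 0) ^ 2) := by
    apply Real.sqrt_le_sqrt
    have : (max c 0) ^ 2 ≤ (max d 0) ^ 2 := pow_le_pow_left₀ h0 h2 2
    linarith
  have h4 : 2 / Real.sqrt 3 * Real.sqrt (1 - (max d 0) ^ 2) ≤
      2 / Real.sqrt 3 * Real.sqrt (1 - (max c 0) ^ 2) :=
    mul_le_mul_of_nonneg_left h3 (by positivity)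
  linarith

theorem G_cont : Continuous G := by
  unfold G
  fun_prop

end J00

section J01
theorem tp_aux_cos (s : ℝ) :
    Real.cos (s - ph 0) = Real.cos s ∧
    Real.cos (s - ph 1) = -(Real.cos s) / 2 + Real.sin s * (Real.sqrt 3 / 2) ∧
    Real.cos (s - ph 2) = -(Real.cos s) / 2 - Real.sin s * (Real.sqrt 3 / 2) := by
  refine ⟨?_, ?_, ?_⟩
  · simp [ph]
  · have h : ph 1 = Real.pi - Real.pi / 3 := by
      simp [ph]
      ring
    rw [h, Real.cos_sub, Real.cos_pi_sub, Real.sin_pi_sub, Real.cos_pi_div_three,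
      Real.sin_pi_div_three]
    ring
  · have h : ph 2 = Real.pi / 3 + Real.pi := by
      simp [ph]
      ring
    rw [h, Real.cos_sub, Real.cos_add_pi, Real.sin_add_pi, Real.cos_pi_div_three,
      Real.sin_pi_div_three]
    ring

theorem tp_mem (s : ℝ) : tp s ∈ tset := by
  refine ⟨fun i => ⟨G_nonneg _, G_le_one _⟩, ?_⟩
  obtain ⟨h0, h1, h2⟩ := tp_aux_cos s
  have h3 : Real.sqrt 3 ^ 2 = 3 := Real.sq_sqrt (by norm_num)
  have hsc := Real.sin_sq_add_cos_sq s
  have z0 : Real.cos (s - ph 0) ≤ 1 / 2 → tp s 0 = 0 := fun h => G_eq_zero h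
  have z1 : Real.cos (s - ph 1) ≤ 1 / 2 → tp s 1 = 0 := fun h => G_eq_zero h
  have z2 : Real.cos (s - ph 2) ≤ 1 / 2 → tp s 2 = 0 := fun h => G_eq_zero h
  rw [h0] at z0
  rw [h1] at z1
  rw [h2] at z2
  have q01 : Real.cos s ^ 2 + (-(Real.cos s) / 2 + Real.sin s * (Real.sqrt 3 / 2)) ^ 2 +
      Real.cos s * (-(Real.cos s) / 2 + Real.sin s * (Real.sqrt 3 / 2)) = 3 / 4 := by
    linear_combination (3 / 4) * hsc + (Real.sin s ^ 2 / 4) * h3
  have q02 : Real.cos s ^ 2 + (-(Real.cos s) / 2 - Real.sin s * (Real.sqrt 3 / 2)) ^ 2 +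
      Real.cos s * (-(Real.cos s) / 2 - Real.sin s * (Real.sqrt 3 / 2)) = 3 / 4 := by
    linear_combination (3 / 4) * hsc + (Real.sin s ^ 2 / 4) * h3
  have q12 : (-(Real.cos s) / 2 + Real.sin s * (Real.sqrt 3 / 2)) ^ 2 +
      (-(Real.cos s) / 2 - Real.sin s * (Real.sqrt 3 / 2)) ^ 2 +
      (-(Real.cos s) / 2 + Real.sin s * (Real.sqrt 3 / 2)) *
        (-(Real.cos s) / 2 - Real.sin s * (Real.sqrt 3 / 2)) = 3 / 4 := by
    linear_combination (3 / 4) * hsc + (Real.sin s ^ 2 / 4) * h3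
  by_cases hc0 : Real.cos s ≤ 1 / 2
  · by_cases hc1 : -(Real.cos s) / 2 + Real.sin s * (Real.sqrt 3 / 2) ≤ 1 / 2
    · refine ⟨2, fun i hi => ?_⟩
      fin_cases i
      · exact z0 hc0
      · exact z1 hc1
      · exact absurd rfl hi
    · refine ⟨1, fun i hi => ?_⟩
      fin_cases i
      · exact z0 hc0
      · exact absurd rfl hi
      · apply z2
        by_contra hcon
        push Not at hc1 hcon
        nlinarith
  · push Not at hc0
    refine ⟨0, fun i hi => ?_⟩
    fin_cases i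
    · exact absurd rfl hi
    · apply z1
      by_contra hcon
      push Not at hcon
      nlinarith
    · apply z2
      by_contra hcon
      push Not at hcon
      nlinarith

theorem tp_cont : Continuous tp := by
  refine continuous_pi fun i => ?_
  exact G_cont.comp (Real.continuous_cos.comp (continuous_id.sub continuous_const))

theorem tp_periodic (s : ℝ) : tp (s + 2 * Real.pi) = tp s := by
  funext i
  unfold tp
  rw [show s + 2 * Real.pi - ph i = (s - ph i) + 2 * Real.pi by ring, Real.cos_add_two_pi]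

end J01

section J02
theorem auxTS_shift {t : Fin 3 → ℝ} {s0 : ℝ} (h : tp s0 = t) (a : ℝ) :
    ∃ s, a ≤ s ∧ s ≤ a + 2 * Real.pi ∧ tp s = t := by
  have hp : Function.Periodic tp (2 * Real.pi) := tp_periodic
  obtain ⟨y, hy, hy2⟩ := hp.exists_mem_Ico Real.two_pi_pos s0 a
  exact ⟨y, hy.1, hy.2.le, by rw [← hy2, h]⟩

theorem auxTS_zero : tp (Real.pi / 3) = 0 := by
  funext i
  unfold tp ph
  rw [Pi.zero_apply]
  apply G_eq_zero
  fin_cases i
  · have e : Real.pi / 3 - 2 * Real.pi / 3 * (((0 : Fin 3) : ℕ) : ℝ) = Real.pi / 3 := by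
      norm_num
    change Real.cos (Real.pi / 3 - 2 * Real.pi / 3 * (((0 : Fin 3) : ℕ) : ℝ)) ≤ 1 / 2
    rw [e, Real.cos_pi_div_three]
  · have e : Real.pi / 3 - 2 * Real.pi / 3 * (((1 : Fin 3) : ℕ) : ℝ) = -(Real.pi / 3) := by
      norm_num
      ring
    change Real.cos (Real.pi / 3 - 2 * Real.pi / 3 * (((1 : Fin 3) : ℕ) : ℝ)) ≤ 1 / 2
    rw [e, Real.cos_neg, Real.cos_pi_div_three]
  · have e : Real.pi / 3 - 2 * Real.pi / 3 * (((2 : Fin 3) : ℕ) : ℝ) = -Real.pi := by
      norm_num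
      ring
    change Real.cos (Real.pi / 3 - 2 * Real.pi / 3 * (((2 : Fin 3) : ℕ) : ℝ)) ≤ 1 / 2
    rw [e, Real.cos_neg, Real.cos_pi]
    norm_num

theorem auxTS_ivt {r : ℝ} (h0 : 0 ≤ r) (h1 : r ≤ 1) : ∃ x : ℝ, G (Real.cos x) = r := by
  have hc : Continuous (fun x : ℝ => G (Real.cos x)) := G_cont.comp Real.continuous_cos
  have hv := intermediate_value_univ (Real.pi / 3) 0 hc
  have hmem : r ∈ Icc (G (Real.cos (Real.pi / 3))) (G (Real.cos 0)) := by
    rw [Real.cos_pi_div_three, Real.cos_zero, G_one, G_eq_zero le_rfl]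
    exact ⟨h0, h1⟩
  obtain ⟨x, hx⟩ := hv hmem
  exact ⟨x, hx⟩

theorem tp_surj {t : Fin 3 → ℝ} (ht : t ∈ tset) (a : ℝ) :
    ∃ s, a ≤ s ∧ s ≤ a + 2 * Real.pi ∧ tp s = t := by
  obtain ⟨hb, j, hj⟩ := ht
  by_cases hr : t j = 0
  · refine auxTS_shift (s0 := Real.pi / 3) ?_ a
    rw [auxTS_zero]
    funext i
    by_cases hij : i = j
    · rw [hij, hr]
      rfl
    · rw [hj i hij]
      rfl
  · obtain ⟨x, hx⟩ := auxTS_ivt (hb j).1 (hb j).2
    refine auxTS_shift (s0 := ph j + x) ?_ a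
    have hjv : tp (ph j + x) j = t j := by
      unfold tp
      rw [add_sub_cancel_left, hx]
    obtain ⟨-, j', hj'⟩ := tp_mem (ph j + x)
    have hjj : j = j' := by
      by_contra hne
      have := hj' j hne
      rw [hjv] at this
      exact hr this
    funext i
    by_cases hij : i = j
    · rw [hij, hjv]
    · rw [hj' i (by rw [← hjj]; exact hij), hj i hij]

end J02

section J03
theorem xc_tset_closed : IsClosed tset := by
  have h : tset = {t : Fin 3 → ℝ | ∀ i, 0 ≤ t i ∧ t i ≤ 1} ∩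
      ⋃ j : Fin 3, {t : Fin 3 → ℝ | ∀ i, i ≠ j → t i = 0} := by
    ext t
    simp only [tset, Set.mem_setOf_eq, Set.mem_inter_iff, Set.mem_iUnion]
  rw [h]
  apply IsClosed.inter
  · have : {t : Fin 3 → ℝ | ∀ i, 0 ≤ t i ∧ t i ≤ 1} =
        ⋂ i, ({t : Fin 3 → ℝ | 0 ≤ t i} ∩ {t : Fin 3 → ℝ | t i ≤ 1}) := by
      ext t
      simp only [Set.mem_setOf_eq, Set.mem_iInter, Set.mem_inter_iff]
    rw [this]
    refine isClosed_iInter fun i => ?_
    exact (isClosed_le continuous_const (continuous_apply i)).inter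
      (isClosed_le (continuous_apply i) continuous_const)
  · refine isClosed_iUnion_of_finite fun j => ?_
    have : {t : Fin 3 → ℝ | ∀ i, i ≠ j → t i = 0} =
        ⋂ i, ⋂ (_ : i ≠ j), {t : Fin 3 → ℝ | t i = 0} := by
      ext t
      simp only [Set.mem_setOf_eq, Set.mem_iInter]
    rw [this]
    refine isClosed_iInter fun i => isClosed_iInter fun _ => ?_
    exact isClosed_eq (continuous_apply i) continuous_const

theorem xc_closed : IsClosed Xset := by
  have h : Xset = {x : E | x.1 ∈ tset} ∩ ({x : E | 0 ≤ x.2} ∩ ({x : E | x.2 ≤ 1} ∩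
      {x : E | x.2 ≠ 0 ∧ x.1 - tp (1 / x.2 - 1) ≠ 0}ᶜ)) := by
    ext x
    simp only [Xset, Set.mem_setOf_eq, Set.mem_inter_iff, Set.mem_compl_iff, not_and, not_not,
      sub_eq_zero]
    constructor
    · rintro (⟨h1, h2⟩ | ⟨h1, h2, h3⟩)
      · exact ⟨h2, h1.ge, by rw [h1]; norm_num, fun h => absurd h1 h⟩
      · refine ⟨?_, h1.le, h2, fun _ => h3⟩
        rw [h3]; exact tp_mem _
    · rintro ⟨h1, h2, h3, h4⟩
      rcases h2.eq_or_lt with h | h
      · exact Or.inl ⟨h.symm, h1⟩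
      · exact Or.inr ⟨h, h3, h4 h.ne'⟩
  rw [h]
  apply (xc_tset_closed.preimage continuous_fst).inter
  apply (isClosed_le continuous_const continuous_snd).inter
  apply (isClosed_le continuous_snd continuous_const).inter
  apply IsOpen.isClosed_compl
  have ho : IsOpen {x : E | x.2 ≠ 0} := isOpen_ne_fun continuous_snd continuous_const
  have hc : ContinuousOn (fun x : E => x.1 - tp (1 / x.2 - 1)) {x : E | x.2 ≠ 0} := by
    apply continuousOn_fst.sub
    apply tp_cont.comp_continuousOn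
    apply ContinuousOn.sub _ continuousOn_const
    exact continuousOn_const.div continuousOn_snd (fun x hx => hx)
  exact hc.isOpen_inter_preimage ho isOpen_compl_singleton

theorem Xset_compact : IsCompact Xset := by
  have hK : IsCompact (Set.Icc (0 : Fin 3 → ℝ) 1 ×ˢ Set.Icc (0 : ℝ) 1) :=
    isCompact_Icc.prod isCompact_Icc
  refine hK.of_isClosed_subset xc_closed ?_
  have ht : ∀ t ∈ tset, t ∈ Set.Icc (0 : Fin 3 → ℝ) 1 := by
    intro t ht
    exact ⟨fun i => (ht.1 i).1, fun i => (ht.1 i).2⟩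
  rintro x (⟨h1, h2⟩ | ⟨h1, h2, h3⟩)
  · exact ⟨ht _ h2, by rw [h1]; norm_num⟩
  · refine ⟨?_, h1.le, h2⟩
    rw [h3]
    exact ht _ (tp_mem _)

end J03

section J04
def wsetPhi (z : ℝ) : E := (tp (1 / z - 1), z)

theorem wsetPhi_cont : ContinuousOn wsetPhi (Ioi 0) := by
  unfold wsetPhi
  apply ContinuousOn.prodMk _ continuousOn_id
  apply tp_cont.comp_continuousOn
  apply ContinuousOn.sub _ continuousOn_const
  exact continuousOn_const.div continuousOn_id (fun x hx => ne_of_gt hx)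

theorem wsetPhi_mem {z : ℝ} (h0 : 0 < z) (h1 : z ≤ 1) : wsetPhi z ∈ Xset :=
  Or.inr ⟨h0, h1, rfl⟩

theorem eq_wsetPhi {x : E} (hx : x ∈ Xset) (h : 0 < x.2) : x = wsetPhi x.2 := by
  rcases hx with hx | hx
  · exact absurd hx.1 (ne_of_gt h)
  · exact Prod.ext hx.2.2 rfl

theorem Wset_ok {α β : ℝ} (h0 : 0 ≤ β) (h1 : β ≤ α) (h2 : α ≤ 1) :
    IsCompact (Wset α β) ∧ IsConnected (Wset α β) := by
  constructor
  · have : Wset α β = Xset ∩ {x : E | β ≤ x.2 ∧ x.2 ≤ α} := rfl
    rw [this]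
    apply Xset_compact.inter_right
    exact (isClosed_le continuous_const continuous_snd).inter
      (isClosed_le continuous_snd continuous_const)
  · rcases h0.lt_or_eq with hb | hb
    · have : Wset α β = wsetPhi '' Icc β α := by
        ext x
        constructor
        · rintro ⟨hx, hx1, hx2⟩
          exact ⟨x.2, ⟨hx1, hx2⟩, (eq_wsetPhi hx (hb.trans_le hx1)).symm⟩
        · rintro ⟨z, ⟨hz1, hz2⟩, rfl⟩
          exact ⟨wsetPhi_mem (hb.trans_le hz1) (hz2.trans h2), hz1, hz2⟩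
      rw [this]
      exact (isConnected_Icc h1).image _ (wsetPhi_cont.mono fun z hz => hb.trans_le hz.1)
    · subst hb
      rcases h1.lt_or_eq with ha | ha
      · have hR : IsConnected (wsetPhi '' Ioc 0 α) :=
          (isConnected_Ioc ha).image _ (wsetPhi_cont.mono fun z hz => hz.1)
        have hsub : wsetPhi '' Ioc 0 α ⊆ Wset α 0 := by
          rintro _ ⟨z, ⟨hz1, hz2⟩, rfl⟩
          exact ⟨wsetPhi_mem hz1 (hz2.trans h2), hz1.le, hz2⟩
        refine hR.subset_closure hsub ?_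
        rintro x ⟨hx, hx1, hx2⟩
        rcases hx1.lt_or_eq with hp | hp
        · exact subset_closure ⟨x.2, ⟨hp, hx2⟩, (eq_wsetPhi hx hp).symm⟩
        · have hx3 : x.1 ∈ tset := by
            rcases hx with hx | hx
            · exact hx.2
            · exact absurd hx.1 (by rw [← hp]; exact lt_irrefl _)
          choose s hs1 hs2 hs3 using fun n : ℕ => tp_surj hx3 ((n : ℝ) + 1 / α)
          have hpos : ∀ n, 0 < 1 + s n := fun n => by
            have := hs1 n
            have h3 : (0 : ℝ) ≤ n := Nat.cast_nonneg n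
            have h4 : 0 < 1 / α := by positivity
            linarith
          have hlim : Filter.Tendsto (fun n : ℕ => wsetPhi (1 / (1 + s n))) Filter.atTop
              (nhds x) := by
            have e : ∀ n, wsetPhi (1 / (1 + s n)) = (x.1, 1 / (1 + s n)) := by
              intro n
              unfold wsetPhi
              rw [one_div_one_div, add_sub_cancel_left, hs3 n]
            simp_rw [e]
            have hx4 : x = (x.1, 0) := Prod.ext rfl hp.symm
            rw [hx4]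
            apply Filter.Tendsto.prodMk_nhds tendsto_const_nhds
            have h5 : Filter.Tendsto (fun n : ℕ => 1 + s n) Filter.atTop Filter.atTop := by
              apply Filter.tendsto_atTop_mono (f := fun n : ℕ => (n : ℝ)) _
                tendsto_natCast_atTop_atTop
              intro n
              have := hs1 n
              have h4 : 0 < 1 / α := by positivity
              show (n : ℝ) ≤ 1 + s n
              linarith
            have h6 := tendsto_inv_atTop_zero.comp h5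
            refine h6.congr fun n => ?_
            simp [one_div]
          apply mem_closure_of_tendsto hlim
          apply Filter.Eventually.of_forall
          intro n
          refine ⟨1 / (1 + s n), ⟨by have := hpos n; positivity, ?_⟩, rfl⟩
          rw [div_le_iff₀ (hpos n)]
          have h3 : (0 : ℝ) ≤ n := Nat.cast_nonneg n
          have h6 : 1 / α ≤ 1 + s n := by linarith [hs1 n]
          rw [div_le_iff₀ ha] at h6
          linarith
      · subst ha
        have hW : Wset 0 0 = (fun t : Fin 3 → ℝ => ((t, 0) : E)) '' tset := by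
          ext x
          constructor
          · rintro ⟨hx, hx1, hx2⟩
            have hx0 : x.2 = 0 := le_antisymm hx2 hx1
            rcases hx with hx | hx
            · exact ⟨x.1, hx.2, Prod.ext rfl hx0.symm⟩
            · exact absurd hx.1 (by rw [hx0]; exact lt_irrefl _)
          · rintro ⟨t, ht, rfl⟩
            exact ⟨Or.inl ⟨rfl, ht⟩, le_rfl, le_rfl⟩
        rw [hW]
        have h0t : (0 : Fin 3 → ℝ) ∈ tset :=
          ⟨fun i => ⟨le_rfl, zero_le_one⟩, 0, fun i _ => rfl⟩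
        have hstar : StarConvex ℝ (0 : Fin 3 → ℝ) tset := by
          rw [starConvex_zero_iff]
          rintro t ⟨ht1, j, hj⟩ a ha0 ha1
          refine ⟨fun i => ⟨?_, ?_⟩, j, fun i hi => ?_⟩
          · exact mul_nonneg ha0 (ht1 i).1
          · exact mul_le_one₀ ha1 (ht1 i).1 (ht1 i).2
          · show a * t i = 0
            rw [hj i hi, mul_zero]
        exact (hstar.isPathConnected h0t).isConnected.image _
          (Continuous.prodMk_left 0).continuousOn

end J04

section J05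
theorem KT_ok {D : Fin 3 → ℝ} (h0 : ∀ i, 0 ≤ D i) (h1 : ∀ i, D i ≤ 1) :
    IsCompact (KTset D) ∧ IsConnected (KTset D) ∧ KTset D ⊆ Xset := by
  have hts : IsClosed tset := by
    have h : tset = (⋂ i : Fin 3, {t : Fin 3 → ℝ | 0 ≤ t i ∧ t i ≤ 1}) ∩ ⋃ j : Fin 3, ⋂ i : Fin 3, {t : Fin 3 → ℝ | i ≠ j → t i = 0} := by
      ext t
      simp only [tset, Set.mem_ofPred_eq, Set.mem_inter_iff, Set.mem_iInter, Set.mem_iUnion]
    rw [h]
    refine (isClosed_iInter (fun i => ?_)).inter (isClosed_iUnion_of_finite (fun j => isClosed_iInter (fun i => ?_)))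
    · exact (isClosed_le continuous_const (continuous_apply i)).inter (isClosed_le (continuous_apply i) continuous_const)
    · by_cases hij : i = j
      · have : {t : Fin 3 → ℝ | i ≠ j → t i = 0} = univ := by
          ext t; simp [hij]
        rw [this]; exact isClosed_univ
      · have : {t : Fin 3 → ℝ | i ≠ j → t i = 0} = {t | t i = 0} := by
          ext t; simp [hij]
        rw [this]; exact isClosed_eq (continuous_apply i) continuous_const
  have hK : IsClosed (KTset D) := by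
    have h : KTset D = {x : E | x.2 = 0} ∩ (Prod.fst ⁻¹' tset ∩ ⋂ i : Fin 3, {x : E | x.1 i ≤ 1 - D i}) := by
      ext x
      simp only [KTset, Set.mem_ofPred_eq, Set.mem_inter_iff, Set.mem_iInter, Set.mem_preimage]
    rw [h]
    refine (isClosed_eq continuous_snd continuous_const).inter ((hts.preimage continuous_fst).inter (isClosed_iInter (fun i => ?_)))
    exact isClosed_le ((continuous_apply i).comp continuous_fst) continuous_const
  refine ⟨?_, ?_, ?_⟩
  · refine IsCompact.of_isClosed_subset ((isCompact_Icc (a := (0 : Fin 3 → ℝ)) (b := 1)).prod (isCompact_singleton (x := (0:ℝ)))) hK ?_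
    rintro ⟨t, s⟩ ⟨h2, h3, -⟩
    exact ⟨⟨fun i => (h3.1 i).1, fun i => (h3.1 i).2⟩, h2⟩
  · have h0m : ((0 : Fin 3 → ℝ), (0:ℝ)) ∈ KTset D := by
      refine ⟨rfl, ⟨fun i => ⟨le_rfl, zero_le_one⟩, 0, fun i _ => rfl⟩, fun i => ?_⟩
      have := h1 i
      show (0:ℝ) ≤ 1 - D i
      linarith
    have hstar : StarConvex ℝ ((0 : Fin 3 → ℝ), (0:ℝ)) (KTset D) := by
      rintro ⟨t, s⟩ ⟨h2, ⟨h3, j, h4⟩, h5⟩ a b ha hb hab
      simp only at h2 h3 h4 h5
      have hb1 : b ≤ 1 := by linarith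
      have e : a • (((0 : Fin 3 → ℝ), (0:ℝ)) : E) + b • ((t, s) : E) = (b • t, b * s) := by
        ext <;> simp
      rw [e]
      refine ⟨?_, ⟨fun i => ⟨?_, ?_⟩, j, fun i hi => ?_⟩, fun i => ?_⟩
      · show b * s = 0
        rw [h2, mul_zero]
      · show 0 ≤ b * t i
        exact mul_nonneg hb (h3 i).1
      · show b * t i ≤ 1
        exact mul_le_one₀ hb1 (h3 i).1 (h3 i).2
      · show b * t i = 0
        rw [h4 i hi, mul_zero]
      · show b * t i ≤ 1 - D i
        have := h5 i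
        have h6 := (h3 i).1
        nlinarith
    exact (StarConvex.isPathConnected hstar h0m).isConnected
  · rintro x ⟨h2, h3, -⟩
    exact Or.inl ⟨h2, h3⟩

end J05

section J06
theorem classify {K : Set E} (hc : IsCompact K) (hn : IsConnected K) (hX : K ⊆ Xset)
    (hm : 0 < mz K) : K = Wset (mz K) (nz K) ∧ mz K ≤ 1 ∧ 0 ≤ nz K ∧ nz K ≤ mz K := by
  have hK2c : IsCompact (Prod.snd '' K) := hc.image continuous_snd
  have hK2n : (Prod.snd '' K).Nonempty := hn.nonempty.image _
  have hsup : mz K ∈ Prod.snd '' K := hK2c.sSup_mem hK2n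
  have hinf : nz K ∈ Prod.snd '' K := hK2c.sInf_mem hK2n
  have hle : ∀ x ∈ K, x.2 ≤ mz K := fun x hx =>
    le_csSup hK2c.bddAbove (mem_image_of_mem _ hx)
  have hge : ∀ x ∈ K, nz K ≤ x.2 := fun x hx =>
    csInf_le hK2c.bddBelow (mem_image_of_mem _ hx)
  have hX2 : ∀ x ∈ Xset, 0 ≤ x.2 ∧ x.2 ≤ 1 := by
    rintro x (⟨h1, h2⟩ | ⟨h1, h2, h3⟩)
    · rw [h1]; exact ⟨le_rfl, zero_le_one⟩
    · exact ⟨h1.le, h2⟩
  have hα1 : mz K ≤ 1 := by
    obtain ⟨y, hy, hy2⟩ := hsup
    rw [← hy2]; exact (hX2 y (hX hy)).2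
  have hβ0 : 0 ≤ nz K := by
    obtain ⟨y, hy, hy2⟩ := hinf
    rw [← hy2]; exact (hX2 y (hX hy)).1
  have hβα : nz K ≤ mz K := by
    obtain ⟨y, hy, hy2⟩ := hinf
    rw [← hy2]; exact hle y hy
  have hconn : (Prod.snd '' K).OrdConnected :=
    (hn.isPreconnected.image _ continuous_snd.continuousOn).ordConnected
  have key : ∀ z : ℝ, 0 < z → nz K ≤ z → z ≤ mz K → ((tp (1 / z - 1), z) : E) ∈ K := by
    intro z hz h1 h2
    obtain ⟨y, hy, hy2⟩ := hconn.out hinf hsup ⟨h1, h2⟩
    rcases hX hy with ⟨h3, h4⟩ | ⟨h3, h4, h5⟩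
    · exfalso
      have : y.2 = z := hy2
      linarith
    · have h6 : y.2 = z := hy2
      have : y = (tp (1 / z - 1), z) := by
        refine Prod.ext ?_ h6
        rw [h5, h6]
      rw [← this]; exact hy
  refine ⟨?_, hα1, hβ0, hβα⟩
  apply Subset.antisymm
  · intro x hx
    exact ⟨hX hx, hge x hx, hle x hx⟩
  · rintro x ⟨hx, hx1, hx2⟩
    rcases hx with ⟨h3, h4⟩ | ⟨h3, h4, h5⟩
    · have hβ : nz K = 0 := le_antisymm (h3 ▸ hx1) hβ0
      choose s hs1 hs2 hs3 using fun n : ℕ => tp_surj h4 ((n : ℝ) + 1 / mz K)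
      have hα : 0 < 1 / mz K := by positivity
      have hspos : ∀ n, 0 < 1 + s n := fun n => by
        have := hs1 n
        have hn0 : (0 : ℝ) ≤ n := Nat.cast_nonneg n
        linarith
      have hmem : ∀ n, ((x.1, 1 / (1 + s n)) : E) ∈ K := by
        intro n
        have hz : 0 < 1 / (1 + s n) := by
          have := hspos n
          positivity
        have hle2 : 1 / (1 + s n) ≤ mz K := by
          rw [div_le_iff₀ (hspos n)]
          have h7 : 1 / mz K ≤ 1 + s n := by
            have := hs1 n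
            have hn0 : (0 : ℝ) ≤ n := Nat.cast_nonneg n
            linarith
          have h8 : mz K * (1 / mz K) = 1 := by field_simp
          nlinarith
        have h9 := key (1 / (1 + s n)) hz (by rw [hβ]; exact hz.le) hle2
        have h10 : 1 / (1 / (1 + s n)) - 1 = s n := by
          rw [one_div_one_div]; ring
        rw [h10, hs3] at h9
        exact h9
      have hlim : Filter.Tendsto (fun n => ((x.1, 1 / (1 + s n)) : E)) Filter.atTop (nhds x) := by
        have hx0 : x = (x.1, (0:ℝ)) := Prod.ext rfl h3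
        rw [hx0]
        refine Filter.Tendsto.prodMk_nhds tendsto_const_nhds ?_
        have h11 : Filter.Tendsto (fun n => 1 + s n) Filter.atTop Filter.atTop := by
          refine Filter.tendsto_atTop_mono (f := fun n : ℕ => (n : ℝ)) ?_
            tendsto_natCast_atTop_atTop
          intro n
          have := hs1 n
          linarith
        have h12 := h11.inv_tendsto_atTop
        simp only [one_div]
        exact h12
      exact hc.isClosed.mem_of_tendsto hlim (Filter.Eventually.of_forall hmem)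
    · have := key x.2 h3 hx1 hx2
      rw [← h5] at this
      exact this

end J06

section J07
theorem mz_W_pos {γ : ℝ} (h0 : 0 < γ) (h1 : γ ≤ 1) : ((tp (1 / γ - 1), γ) : E) ∈ Xset :=
  Or.inr ⟨h0, h1, rfl⟩

theorem mz_W_zero : ((0, 0) : E) ∈ Xset := by
  refine Or.inl ⟨rfl, fun i => ⟨le_rfl, zero_le_one⟩, 0, fun i _ => rfl⟩

theorem mz_W_nonneg {x : E} (hx : x ∈ Xset) : 0 ≤ x.2 ∧ x.2 ≤ 1 := by
  rcases hx with ⟨h, -⟩ | ⟨h, h', -⟩
  · rw [h]
    exact ⟨le_rfl, zero_le_one⟩
  · exact ⟨h.le, h'⟩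

theorem mz_W {α β : ℝ} (h0 : 0 ≤ β) (h1 : β ≤ α) (h2 : α ≤ 1) (ha : 0 < α) :
    mz (Wset α β) = α ∧ nz (Wset α β) = β := by
  constructor
  · apply IsGreatest.csSup_eq
    refine ⟨⟨(tp (1 / α - 1), α), ⟨mz_W_pos ha h2, h1, le_rfl⟩, rfl⟩, ?_⟩
    rintro _ ⟨x, hx, rfl⟩
    exact hx.2.2
  · apply IsLeast.csInf_eq
    refine ⟨?_, ?_⟩
    · rcases h0.lt_or_eq with h | h
      · exact ⟨(tp (1 / β - 1), β), ⟨mz_W_pos h (h1.trans h2), le_rfl, h1⟩, rfl⟩
      · subst h
        exact ⟨(0, 0), ⟨mz_W_zero, le_rfl, h1⟩, rfl⟩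
    · rintro _ ⟨x, hx, rfl⟩
      exact hx.2.1

theorem mz_nonneg {K : Set E} (hc : IsCompact K) (hn : K.Nonempty) (hX : K ⊆ Xset) :
    0 ≤ mz K ∧ (mz K = 0 → ∀ x ∈ K, x.2 = 0) := by
  have hb : BddAbove (Prod.snd '' K) := by
    refine ⟨1, ?_⟩
    rintro _ ⟨x, hx, rfl⟩
    exact (mz_W_nonneg (hX hx)).2
  have hle : ∀ x ∈ K, x.2 ≤ mz K := fun x hx => le_csSup hb ⟨x, hx, rfl⟩
  constructor
  · obtain ⟨x, hx⟩ := hn
    exact (mz_W_nonneg (hX hx)).1.trans (hle x hx)
  · intro h x hx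
    have h3 := hle x hx
    rw [h] at h3
    exact le_antisymm h3 (mz_W_nonneg (hX hx)).1

end J07

section J08
theorem dl_aux_tset {x : E} (hx : x ∈ Xset) : x.1 ∈ tset := by
  rcases hx with ⟨_, h⟩ | ⟨_, _, h⟩
  · exact h
  · rw [h]; exact tp_mem _

theorem dl_mem {K : Set E} (hc : IsCompact K) (hn : K.Nonempty) (hX : K ⊆ Xset) (i : Fin 3) :
    0 ≤ dl K i ∧ dl K i ≤ 1 := by
  have hb : ∀ x ∈ K, 0 ≤ x.1 i ∧ x.1 i ≤ 1 := fun x hx => (dl_aux_tset (hX hx)).1 i
  obtain ⟨x0, hx0⟩ := hn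
  have hne : ((fun x : E => x.1 i) '' K).Nonempty := ⟨_, x0, hx0, rfl⟩
  have hle : sSup ((fun x : E => x.1 i) '' K) ≤ 1 := by
    apply csSup_le hne
    rintro _ ⟨x, hx, rfl⟩
    exact (hb x hx).2
  have hge : 0 ≤ sSup ((fun x : E => x.1 i) '' K) := by
    refine le_trans (hb x0 hx0).1 (le_csSup ⟨1, ?_⟩ ⟨x0, hx0, rfl⟩)
    rintro _ ⟨x, hx, rfl⟩
    exact (hb x hx).2
  unfold dl
  constructor <;> linarith

theorem dl_KT {D : Fin 3 → ℝ} (h0 : ∀ i, 0 ≤ D i) (h1 : ∀ i, D i ≤ 1) : dl (KTset D) = D := by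
  funext i
  have hg : IsGreatest ((fun x : E => x.1 i) '' KTset D) (1 - D i) := by
    constructor
    · refine ⟨(Pi.single i (1 - D i), 0), ⟨rfl, ⟨?_, i, ?_⟩, ?_⟩, ?_⟩
      · intro j
        show 0 ≤ (Pi.single i (1 - D i) : Fin 3 → ℝ) j ∧ (Pi.single i (1 - D i) : Fin 3 → ℝ) j ≤ 1
        by_cases hj : j = i
        · subst hj
          rw [Pi.single_eq_same]
          have := h0 j; have := h1 j
          constructor <;> linarith
        · rw [Pi.single_eq_of_ne hj]
          norm_num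
      · intro j hj
        exact Pi.single_eq_of_ne hj _
      · intro j
        show (Pi.single i (1 - D i) : Fin 3 → ℝ) j ≤ 1 - D j
        by_cases hj : j = i
        · subst hj
          rw [Pi.single_eq_same]
        · rw [Pi.single_eq_of_ne hj]
          have := h1 j
          linarith
      · exact Pi.single_eq_same _ _
    · rintro _ ⟨x, hx, rfl⟩
      exact hx.2.2 i
  unfold dl
  rw [hg.csSup_eq]
  ring

theorem Wset_zero : Wset 0 0 = KTset 0 := by
  ext x
  constructor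
  · rintro ⟨hx, h1, h2⟩
    have h3 : x.2 = 0 := le_antisymm h2 h1
    have ht := dl_aux_tset hx
    refine ⟨h3, ht, fun i => ?_⟩
    have := (ht.1 i).2
    simpa using this
  · rintro ⟨h1, h2, _⟩
    exact ⟨Or.inl ⟨h1, h2⟩, h1.ge, h1.le⟩

end J08

section J09
theorem aux_sSup_le {g : E → ℝ} (hg : LipschitzWith 1 g) (K L : NonemptyCompacts E) :
    sSup (g '' (K : Set E)) ≤ sSup (g '' (L : Set E)) + dist K L := by
  apply csSup_le (K.nonempty.image g)
  rintro _ ⟨x, hx, rfl⟩
  have hfin : Metric.hausdorffEDist (K : Set E) (L : Set E) ≠ ⊤ :=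
    Metric.hausdorffEDist_ne_top_of_nonempty_of_bounded K.nonempty L.nonempty
      K.isCompact.isBounded L.isCompact.isBounded
  have h1 : Metric.infDist x (L : Set E) ≤ Metric.hausdorffDist (K : Set E) (L : Set E) :=
    Metric.infDist_le_hausdorffDist_of_mem hx hfin
  obtain ⟨y, hy, hxy⟩ := L.isCompact.exists_infDist_eq_dist L.nonempty x
  have h2 : g x - g y ≤ dist x y := by
    have := hg.dist_le_mul x y
    rw [NNReal.coe_one, one_mul, Real.dist_eq] at this
    exact (le_abs_self _).trans this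
  have h3 : g y ≤ sSup (g '' (L : Set E)) :=
    le_csSup (L.isCompact.image hg.continuous).bddAbove ⟨y, hy, rfl⟩
  have h4 : dist K L = Metric.hausdorffDist (K : Set E) (L : Set E) := NonemptyCompacts.dist_eq
  rw [h4]
  linarith

theorem sSup_cont {g : E → ℝ} (hg : LipschitzWith 1 g) :
    Continuous fun K : NonemptyCompacts E => sSup (g '' (K : Set E)) := by
  apply LipschitzWith.continuous (K := 1)
  apply LipschitzWith.of_dist_le_mul
  intro K L
  rw [NNReal.coe_one, one_mul, Real.dist_eq, abs_le]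
  have h1 := aux_sSup_le hg K L
  have h2 := aux_sSup_le hg L K
  rw [dist_comm] at h2
  constructor <;> linarith

theorem sInf_cont {g : E → ℝ} (hg : LipschitzWith 1 g) :
    Continuous fun K : NonemptyCompacts E => sInf (g '' (K : Set E)) := by
  have h := (sSup_cont (g := fun x => - g x) hg.neg).neg
  have heq : (fun K : NonemptyCompacts E => sInf (g '' (K : Set E))) =
      fun K : NonemptyCompacts E => - sSup ((fun x => - g x) '' (K : Set E)) := by
    funext K
    rw [Real.sInf_def]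
    congr 2
    ext y
    simp only [Set.mem_neg, Set.mem_image]
    constructor
    · rintro ⟨x, hx, hxy⟩
      exact ⟨x, hx, by rw [hxy, neg_neg]⟩
    · rintro ⟨x, hx, hxy⟩
      exact ⟨x, hx, by rw [← hxy, neg_neg]⟩
  rw [heq]
  exact h

end J09

section J14
theorem sup_cos {a b φ : ℝ} (hab : a ≤ b) (hb : b ≤ a + 2 * Real.pi) :
    (∀ s, a ≤ s → s ≤ b → Real.cos (s - φ) ≤ Real.cos (max 0 (Real.pi - (b - a) / 2 -
      Real.arccos (Real.cos ((a + b) / 2 + Real.pi - φ))))) ∧
    ∃ s, a ≤ s ∧ s ≤ b ∧ Real.cos (s - φ) = Real.cos (max 0 (Real.pi - (b - a) / 2 -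
      Real.arccos (Real.cos ((a + b) / 2 + Real.pi - φ)))) := by
  have hpi := Real.pi_pos
  set p : ℝ := (a + b) / 2 + Real.pi with hp
  set n : ℤ := round ((p - φ) / (2 * Real.pi)) with hn
  set t : ℝ := p - φ - n * (2 * Real.pi) with htd
  have ht : |t| ≤ Real.pi := by
    have h1 := abs_sub_round ((p - φ) / (2 * Real.pi))
    have e : t = ((p - φ) / (2 * Real.pi) - n) * (2 * Real.pi) := by
      rw [htd]; field_simp
    rw [e, abs_mul, abs_of_pos (by positivity : (0:ℝ) < 2 * Real.pi)]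
    nlinarith
  have hc : ∀ s, Real.cos (s - φ) = Real.cos (s - p + t) := by
    intro s
    have e : s - φ = (s - p + t) + n * (2 * Real.pi) := by rw [htd]; ring
    rw [e, Real.cos_add_int_mul_two_pi]
  have hA : Real.arccos (Real.cos (p - φ)) = |t| := by
    have h1 : Real.cos (p - φ) = Real.cos |t| := by
      rw [Real.cos_abs]
      have h2 := hc p
      rw [sub_self, zero_add] at h2
      exact h2
    rw [h1, Real.arccos_cos (abs_nonneg _) ht]
  rw [hA]
  have hsp : ∀ s, Real.cos (s - p + t) = - Real.cos (s - (a + b) / 2 + t) := by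
    intro s
    have e : s - p + t = (s - (a + b) / 2 + t) - Real.pi := by rw [hp]; ring
    rw [e, Real.cos_sub_pi]
  by_cases hlt : Real.pi - (b - a) / 2 ≤ |t|
  · rw [max_eq_left (by linarith), Real.cos_zero]
    refine ⟨fun s _ _ => Real.cos_le_one _, ?_⟩
    rcases le_total 0 t with h0 | h0
    · rw [abs_of_nonneg h0] at hlt ht
      refine ⟨(a + b) / 2 + (Real.pi - t), by linarith, by linarith, ?_⟩
      rw [hc, hsp]
      have e : (a + b) / 2 + (Real.pi - t) - (a + b) / 2 + t = Real.pi := by ring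
      rw [e, Real.cos_pi, neg_neg]
    · rw [abs_of_nonpos h0] at hlt ht
      refine ⟨(a + b) / 2 - (Real.pi + t), by linarith, by linarith, ?_⟩
      rw [hc, hsp]
      have e : (a + b) / 2 - (Real.pi + t) - (a + b) / 2 + t = -Real.pi := by ring
      rw [e, Real.cos_neg, Real.cos_pi, neg_neg]
  · push Not at hlt
    rw [max_eq_right (by linarith)]
    have hcos : Real.cos (Real.pi - (b - a) / 2 - |t|) = - Real.cos ((b - a) / 2 + |t|) := by
      have e : Real.pi - (b - a) / 2 - |t| = Real.pi - ((b - a) / 2 + |t|) := by ring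
      rw [e, Real.cos_pi_sub]
    rw [hcos]
    constructor
    · intro s h1 h2
      rw [hc, hsp, neg_le_neg_iff, ← Real.cos_abs (s - (a + b) / 2 + t)]
      apply Real.cos_le_cos_of_nonneg_of_le_pi (abs_nonneg _) (by linarith)
      refine (abs_add_le _ _).trans ?_
      gcongr
      rw [abs_le]
      constructor <;> linarith
    · rcases le_total 0 t with h0 | h0
      · refine ⟨b, hab, le_refl _, ?_⟩
        rw [hc, hsp, abs_of_nonneg h0]
        congr 2; ring
      · refine ⟨a, le_refl _, hab, ?_⟩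
        rw [hc, hsp, abs_of_nonpos h0, ← Real.cos_neg]
        congr 2; ring

end J14

section J10
def gamH (z : ℝ) : E := (tp (1 / z - 1), z)

theorem gamH_mem {z : ℝ} (hz : 0 < z) (h1 : z ≤ 1) : gamH z ∈ Xset :=
  Or.inr ⟨hz, h1, rfl⟩

theorem eq_gamH {x : E} (hx : x ∈ Xset) (h : 0 < x.2) : x = gamH x.2 := by
  rcases hx with ⟨h0, _⟩ | ⟨_, _, h3⟩
  · exact absurd h0 h.ne'
  · exact Prod.ext h3 rfl

theorem gamH_unif {c : ℝ} (hc : 0 < c) {ε : ℝ} (hε : 0 < ε) :
    ∃ δ > 0, ∀ z w : ℝ, c ≤ z → z ≤ 1 → c ≤ w → w ≤ 1 → |z - w| < δ →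
      dist (gamH z) (gamH w) ≤ ε := by
  have hcont : ContinuousOn gamH (Icc c 1) := by
    unfold gamH
    refine ContinuousOn.prodMk ?_ continuousOn_id
    refine tp_cont.comp_continuousOn ?_
    refine ContinuousOn.sub ?_ continuousOn_const
    refine ContinuousOn.div continuousOn_const continuousOn_id ?_
    intro x hx
    exact (lt_of_lt_of_le hc hx.1).ne'
  have hu := isCompact_Icc.uniformContinuousOn_of_continuous hcont
  rw [Metric.uniformContinuousOn_iff] at hu
  obtain ⟨δ, hδ, h⟩ := hu ε hε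
  refine ⟨δ, hδ, fun z w h1 h2 h3 h4 h5 => ?_⟩
  exact (h z ⟨h1, h2⟩ w ⟨h3, h4⟩ (by rwa [Real.dist_eq])).le


theorem W_cont {α₀ β₀ : ℝ} (ha : 0 < α₀) (ha1 : α₀ ≤ 1) (hb : 0 ≤ β₀) (hba : β₀ ≤ α₀)
    {ε : ℝ} (hε : 0 < ε) : ∃ r > 0, ∀ α β : ℝ, 0 ≤ β → β ≤ α → α ≤ 1 → |α - α₀| < r →
      |β - β₀| < r → hausdorffDist (Wset α β) (Wset α₀ β₀) < ε := by
  have hε2 : 0 < ε / 2 := by linarith
  rcases hb.eq_or_lt with hb0 | hb0
  · -- β₀ = 0
    subst hb0
    obtain ⟨δ, hδ, hu⟩ := gamH_unif (c := α₀ / 2) (by linarith) hε2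
    have hpi : 0 < Real.pi := Real.pi_pos
    refine ⟨min (min δ (α₀ / 3)) (min (ε / 4) (1 / (4 * Real.pi))), by positivity, ?_⟩
    intro α β h0 h1 h2 h3 h4
    have h3a : |α - α₀| < δ := lt_of_lt_of_le h3 ((min_le_left _ _).trans (min_le_left _ _))
    have h3b : |α - α₀| < α₀ / 3 := lt_of_lt_of_le h3 ((min_le_left _ _).trans (min_le_right _ _))
    have h4b : |β - 0| < α₀ / 3 := lt_of_lt_of_le h4 ((min_le_left _ _).trans (min_le_right _ _))
    have h4c : |β - 0| < ε / 4 := lt_of_lt_of_le h4 ((min_le_right _ _).trans (min_le_left _ _))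
    have h4d : |β - 0| < 1 / (4 * Real.pi) :=
      lt_of_lt_of_le h4 ((min_le_right _ _).trans (min_le_right _ _))
    rw [sub_zero, abs_of_nonneg h0] at h4b h4c h4d
    have hα1 := abs_lt.1 h3b
    have hαpos : α₀ / 2 ≤ α := by linarith [hα1.1]
    have key : hausdorffDist (Wset α β) (Wset α₀ 0) ≤ ε / 2 := by
      refine Metric.hausdorffDist_le_of_mem_dist hε2.le ?_ ?_
      · rintro x ⟨hx, hx1, hx2⟩
        rcases le_or_gt x.2 α₀ with hle | hlt
        · exact ⟨x, ⟨hx, h0.trans hx1, hle⟩, by rw [dist_self]; exact hε2.le⟩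
        · refine ⟨gamH α₀, ⟨gamH_mem ha ha1, ha.le, le_refl _⟩, ?_⟩
          have hxe := eq_gamH hx (ha.trans hlt)
          have hfin := hu x.2 α₀ (by linarith) (by linarith) (by linarith) ha1 ?_
          · rwa [← hxe] at hfin
          rw [abs_of_pos (by linarith)]
          have := (abs_lt.1 h3a).2
          linarith
      · rintro x ⟨hx, hx1, hx2⟩
        rcases lt_or_ge x.2 β with hlt | hge
        · have hβ : 0 < β := lt_of_le_of_lt hx1 hlt
          have hxt : x.1 ∈ tset := by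
            rcases hx with ⟨_, h⟩ | ⟨_, _, h⟩
            · exact h
            · rw [h]; exact tp_mem _
          obtain ⟨s, hs1, hs2, hs3⟩ := tp_surj hxt (1 / β - 1 - 2 * Real.pi)
          have h4pi : 4 * Real.pi < 1 / β := by
            rw [lt_div_iff₀ (by positivity)] at h4d
            rw [lt_div_iff₀ hβ]
            linarith
          have hs4 : 1 / (2 * β) ≤ 1 + s := by
            have : 1 / (2 * β) = (1 / β) / 2 := by field_simp
            rw [this]
            linarith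
          have hs5 : 1 + s ≤ 1 / β := by linarith
          have hpos : 0 < 1 + s := lt_of_lt_of_le (by positivity) hs4
          have hz1 : β ≤ 1 / (1 + s) := by
            rw [le_div_iff₀ hpos]
            rw [le_div_iff₀ hβ] at hs5
            linarith
          have hz2 : 1 / (1 + s) ≤ 2 * β := by
            rw [div_le_iff₀ hpos]
            rw [div_le_iff₀ (by positivity)] at hs4
            linarith
          refine ⟨gamH (1 / (1 + s)), ⟨gamH_mem (by positivity) (by linarith), hz1, ?_⟩, ?_⟩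
          · show 1 / (1 + s) ≤ α
            linarith [hα1.1]
          · have e1 : (gamH (1 / (1 + s))).1 = x.1 := by
              show tp (1 / (1 / (1 + s)) - 1) = x.1
              rw [one_div_one_div, add_sub_cancel_left, hs3]
            rw [Prod.dist_eq, e1, dist_self]
            refine max_le hε2.le ?_
            show |x.2 - 1 / (1 + s)| ≤ ε / 2
            rw [abs_le]
            constructor <;> linarith
        · rcases le_or_gt x.2 α with hle | hgt
          · exact ⟨x, ⟨hx, hge, hle⟩, by rw [dist_self]; exact hε2.le⟩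
          · refine ⟨gamH α, ⟨gamH_mem (by linarith) h2, h1, le_refl _⟩, ?_⟩
            have hxe := eq_gamH hx (by linarith)
            have hfin := hu x.2 α (by linarith) (by linarith) hαpos h2 ?_
            · rwa [← hxe] at hfin
            rw [abs_of_pos (by linarith)]
            have := (abs_lt.1 h3a).1
            linarith
    linarith
  · obtain ⟨δ, hδ, hu⟩ := gamH_unif (c := β₀ / 2) (by linarith) hε2
    refine ⟨min δ (β₀ / 2), by positivity, ?_⟩
    intro α β h0 h1 h2 h3 h4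
    have h3a := abs_lt.1 (lt_of_lt_of_le h3 (min_le_left _ _))
    have h4a := abs_lt.1 (lt_of_lt_of_le h4 (min_le_left _ _))
    have h4b := abs_lt.1 (lt_of_lt_of_le h4 (min_le_right _ _))
    have hβ : β₀ / 2 ≤ β := by linarith [h4b.1]
    have key : hausdorffDist (Wset α β) (Wset α₀ β₀) ≤ ε / 2 := by
      refine Metric.hausdorffDist_le_of_mem_dist hε2.le ?_ ?_
      · rintro x ⟨hx, hx1, hx2⟩
        have hw1 : β₀ ≤ max β₀ (min x.2 α₀) := le_max_left _ _
        have hw2 : max β₀ (min x.2 α₀) ≤ α₀ := max_le hba (min_le_right _ _)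
        refine ⟨gamH (max β₀ (min x.2 α₀)), ⟨gamH_mem (by linarith) (by linarith), hw1, hw2⟩, ?_⟩
        have hxe := eq_gamH hx (by linarith)
        have hfin := hu x.2 _ (by linarith) (by linarith) (by linarith : β₀ / 2 ≤ max β₀ (min x.2 α₀)) (by linarith) ?_
        · rwa [← hxe] at hfin
        show |x.2 - max β₀ (min x.2 α₀)| < δ
        rw [abs_lt]
        rcases max_cases β₀ (min x.2 α₀) with ⟨e, e'⟩ | ⟨e, e'⟩ <;>
          rcases min_cases x.2 α₀ with ⟨f, f'⟩ | ⟨f, f'⟩ <;> rw [e] <;>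
          (try rw [f]) <;> constructor <;> linarith [h3a.1, h3a.2, h4a.1, h4a.2]
      · rintro x ⟨hx, hx1, hx2⟩
        have hw1 : β ≤ max β (min x.2 α) := le_max_left _ _
        have hw2 : max β (min x.2 α) ≤ α := max_le h1 (min_le_right _ _)
        refine ⟨gamH (max β (min x.2 α)), ⟨gamH_mem (by linarith) (by linarith), hw1, hw2⟩, ?_⟩
        have hxe := eq_gamH hx (by linarith)
        have hfin := hu x.2 _ (by linarith) (by linarith) (by linarith : β₀ / 2 ≤ max β (min x.2 α)) (by linarith) ?_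
        · rwa [← hxe] at hfin
        show |x.2 - max β (min x.2 α)| < δ
        rw [abs_lt]
        rcases max_cases β (min x.2 α) with ⟨e, e'⟩ | ⟨e, e'⟩ <;>
          rcases min_cases x.2 α with ⟨f, f'⟩ | ⟨f, f'⟩ <;> rw [e] <;>
          (try rw [f]) <;> constructor <;> linarith [h3a.1, h3a.2, h4a.1, h4a.2]
    linarith

end J10

section J11
theorem aux_fst_mem {x : E} (hx : x ∈ Xset) : x.1 ∈ tset := by
  rcases hx with ⟨_, h⟩ | ⟨_, _, h⟩
  · exact h
  · rw [h]; exact tp_mem _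

theorem aux_zero_mem {x : E} (hx : x ∈ Xset) {u : ℝ} (hu : 0 ≤ u) :
    ((x.1, 0) : E) ∈ Wset u 0 :=
  have h := aux_fst_mem hx
  ⟨Or.inl ⟨rfl, h⟩, le_refl _, hu⟩

theorem aux_dist_zero {x : E} (h0 : 0 ≤ x.2) {r : ℝ} (hr : x.2 ≤ r) :
    dist x ((x.1, 0) : E) ≤ r := by
  rw [Prod.dist_eq]
  refine max_le ?_ ?_
  · simp only [dist_self]; linarith
  · simp only [Real.dist_eq, sub_zero, abs_of_nonneg h0]; exact hr

theorem W_near {u a β : ℝ} (hu : 0 ≤ u) (hu1 : u ≤ 1) (ha : 0 ≤ a) (hb : 0 ≤ β)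
    (hba : β ≤ 1 / (1 + (a + 2 * Real.pi))) :
    hausdorffDist (Wset (max u (1 / (1 + a))) β) (Wset u 0) ≤ 1 / (1 + a) := by
  have hpi := Real.pi_pos
  have hA : 0 < 1 / (1 + a) := by positivity
  refine hausdorffDist_le_of_mem_dist hA.le ?_ ?_
  · rintro x ⟨hX, h1, h2⟩
    by_cases h : x.2 ≤ u
    · exact ⟨x, ⟨hX, hb.trans h1, h⟩, by simp only [dist_self]; exact hA.le⟩
    · have h3 : x.2 ≤ 1 / (1 + a) := by
        rcases le_max_iff.1 h2 with h4 | h4
        · exact absurd h4 h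
        · exact h4
      exact ⟨(x.1, 0), aux_zero_mem hX hu, aux_dist_zero (hb.trans h1) h3⟩
  · rintro x ⟨hX, h1, h2⟩
    by_cases h : β ≤ x.2
    · exact ⟨x, ⟨hX, h, h2.trans (le_max_left _ _)⟩, by simp only [dist_self]; exact hA.le⟩
    · push Not at h
      obtain ⟨s, hs1, hs2, hs3⟩ := tp_surj (aux_fst_mem hX) a
      have hs0 : 0 < 1 + s := by linarith
      have h5 : β ≤ 1 / (1 + s) :=
        hba.trans (one_div_le_one_div_of_le hs0 (by linarith))
      have h6 : 1 / (1 + s) ≤ 1 / (1 + a) :=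
        one_div_le_one_div_of_le (by linarith) (by linarith)
      refine ⟨(tp s, 1 / (1 + s)), ⟨Or.inr ⟨?_, ?_, ?_⟩, h5, h6.trans (le_max_right _ _)⟩, ?_⟩
      · show 0 < 1 / (1 + s)
        positivity
      · show 1 / (1 + s) ≤ 1
        rw [div_le_one hs0]; linarith
      · show tp s = tp (1 / (1 / (1 + s)) - 1)
        rw [one_div_one_div]; congr 1; ring
      · rw [Prod.dist_eq]
        refine max_le ?_ ?_
        · show dist x.1 (tp s) ≤ _
          rw [hs3, dist_self]; exact hA.le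
        · show dist x.2 (1 / (1 + s)) ≤ _
          rw [Real.dist_eq, abs_le]
          constructor <;> linarith

theorem W_zero_near {u : ℝ} (hu : 0 ≤ u) (hu1 : u ≤ 1) :
    hausdorffDist (Wset u 0) (Wset 0 0) ≤ u := by
  refine hausdorffDist_le_of_mem_dist hu ?_ ?_
  · rintro x ⟨hX, h1, h2⟩
    exact ⟨(x.1, 0), aux_zero_mem hX le_rfl, aux_dist_zero h1 h2⟩
  · rintro x ⟨hX, h1, h2⟩
    exact ⟨x, ⟨hX, h1, h2.trans hu⟩, by simp only [dist_self]; exact hu⟩

end J11

section J12
theorem KT_lip_aux {D D' : Fin 3 → ℝ} (h1' : ∀ i, D' i ≤ 1) (x : E) (hx : x ∈ KTset D) :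
    ∃ y ∈ KTset D', dist x y ≤ dist D D' := by
  obtain ⟨hx0, ⟨hx1, j, hxj⟩, hx2⟩ := hx
  refine ⟨(fun i => min (x.1 i) (1 - D' i), 0), ⟨rfl, ⟨?_, j, ?_⟩, ?_⟩, ?_⟩
  · intro i
    have h := h1' i
    constructor
    · exact le_min (hx1 i).1 (by linarith)
    · exact (min_le_left _ _).trans (hx1 i).2
  · intro i hi
    have h := h1' i
    simp only
    rw [hxj i hi]
    exact min_eq_left (by linarith)
  · intro i
    exact min_le_right _ _
  · rw [Prod.dist_eq]
    apply max_le
    · rw [dist_pi_le_iff dist_nonneg]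
      intro i
      simp only
      have h2 := dist_le_pi_dist D D' i
      rw [Real.dist_eq] at h2 ⊢
      have h3 := hx2 i
      have h4 := neg_abs_le (D i - D' i)
      rcases le_total (x.1 i) (1 - D' i) with h | h
      · rw [min_eq_left h, sub_self, abs_zero]; exact dist_nonneg
      · rw [min_eq_right h, abs_of_nonneg (by linarith)]; linarith
    · simp only
      rw [hx0, dist_self]; exact dist_nonneg

theorem KT_lip {D D' : Fin 3 → ℝ} (h0 : ∀ i, 0 ≤ D i) (h1 : ∀ i, D i ≤ 1)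
    (h0' : ∀ i, 0 ≤ D' i) (h1' : ∀ i, D' i ≤ 1) :
    hausdorffDist (KTset D) (KTset D') ≤ dist D D' := by
  apply hausdorffDist_le_of_mem_dist dist_nonneg
  · intro x hx
    exact KT_lip_aux h1' x hx
  · intro x hx
    rw [dist_comm D D']
    exact KT_lip_aux h1 x hx

end J12

section J13
theorem W_KT {a e p : ℝ} (ha : 0 ≤ a) (he : 0 ≤ e) (he1 : e ≤ Real.pi / 2)
    (hp : p = a + 2 * Real.pi - e) :
    hausdorffDist (Wset (1 / (1 + a)) (1 / (1 + (a + 2 * Real.pi - 2 * e))))
      (KTset fun i => 1 - G (Real.cos (max 0 (e - Real.arccos (Real.cos (p - ph i)))))) ≤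
      1 / (1 + a) := by
  have hpi := Real.pi_pos
  set b : ℝ := a + 2 * Real.pi - 2 * e with hb
  have hab : a ≤ b := by linarith
  have hb2 : b ≤ a + 2 * Real.pi := by linarith
  have hapb : a + Real.pi ≤ b := by linarith
  have e1 : Real.pi - (b - a) / 2 = e := by rw [hb]; ring
  have e2 : (a + b) / 2 + Real.pi = p := by rw [hb, hp]; ring
  have hsc := fun i => sup_cos (φ := ph i) hab hb2
  rw [e1, e2] at hsc
  have hb0 : 0 ≤ b := ha.trans hab
  have hpos : 0 < 1 + a := by linarith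
  -- every point of the tripod part is attained
  have hkey : ∀ t : Fin 3 → ℝ, t ∈ tset →
      (∀ i, t i ≤ G (Real.cos (max 0 (e - Real.arccos (Real.cos (p - ph i)))))) →
      ∃ s, a ≤ s ∧ s ≤ b ∧ tp s = t := by
    intro t ht htV
    obtain ⟨ht1, j, hj⟩ := ht
    rcases (ht1 j).1.eq_or_lt with hr | hr
    · -- t = 0
      set k : ℤ := ⌈(a - Real.pi / 3) / (2 * Real.pi / 3)⌉ with hk
      have h23 : 0 < 2 * Real.pi / 3 := by positivity
      have k1 : (a - Real.pi / 3) / (2 * Real.pi / 3) ≤ k := Int.le_ceil _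
      have k2 : (k : ℝ) < (a - Real.pi / 3) / (2 * Real.pi / 3) + 1 := Int.ceil_lt_add_one _
      rw [div_le_iff₀ h23] at k1
      have k3 : (k : ℝ) * (2 * Real.pi / 3) < a - Real.pi / 3 + 2 * Real.pi / 3 := by
        have := mul_lt_mul_of_pos_right k2 h23
        rw [add_mul, div_mul_cancel₀ _ h23.ne', one_mul] at this
        exact this
      refine ⟨Real.pi / 3 + k * (2 * Real.pi / 3), by linarith, by linarith, ?_⟩
      funext i
      have ht0 : t i = 0 := by
        by_cases hij : i = j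
        · rw [hij, ← hr]
        · exact hj i hij
      rw [ht0]
      apply G_eq_zero
      set θ : ℝ := Real.pi / 3 + k * (2 * Real.pi / 3) - ph i with hθ
      have h3 : Real.cos (3 * θ) = -1 := by
        have : 3 * θ = Real.pi + ((k - ((i : ℕ) : ℤ) : ℤ) : ℝ) * (2 * Real.pi) := by
          rw [hθ]
          unfold ph
          push_cast
          ring
        rw [this, Real.cos_add_int_mul_two_pi, Real.cos_pi]
      rw [Real.cos_three_mul] at h3
      have h4 : (Real.cos θ + 1) * (2 * Real.cos θ - 1) ^ 2 = 0 := by nlinarith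
      rcases mul_eq_zero.mp h4 with h5 | h5
      · linarith
      · have h6 : 2 * Real.cos θ - 1 = 0 := by simpa using h5
        linarith
    · obtain ⟨s1, hs1a, hs1b, hs1⟩ := (hsc j).2
      have hs2 : ∃ s2, a ≤ s2 ∧ s2 ≤ b ∧ Real.cos (s2 - ph j) ≤ 0 := by
        rcases le_total (Real.cos (a - ph j)) 0 with h | h
        · exact ⟨a, le_rfl, hab, h⟩
        · refine ⟨a + Real.pi, by linarith, hapb, ?_⟩
          rw [show a + Real.pi - ph j = (a - ph j) + Real.pi by ring, Real.cos_add_pi]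
          linarith
      obtain ⟨s2, hs2a, hs2b, hs2⟩ := hs2
      have hf : Continuous fun s : ℝ => G (Real.cos (s - ph j)) :=
        G_cont.comp (Real.continuous_cos.comp (continuous_id.sub continuous_const))
      have h1 : t j ∈ uIcc (G (Real.cos (s2 - ph j))) (G (Real.cos (s1 - ph j))) := by
        rw [mem_uIcc]
        left
        rw [G_eq_zero (by linarith : Real.cos (s2 - ph j) ≤ 1 / 2), hs1]
        exact ⟨hr.le, htV j⟩
      obtain ⟨s, hs, hst⟩ := intermediate_value_uIcc (hf.continuousOn (s := uIcc s2 s1)) h1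
      have hs' : s ∈ Icc a b := uIcc_subset_Icc ⟨hs2a, hs2b⟩ ⟨hs1a, hs1b⟩ hs
      refine ⟨s, hs'.1, hs'.2, ?_⟩
      obtain ⟨-, j', hj'⟩ := tp_mem s
      have htj : tp s j = t j := hst
      have hjj : j' = j := by
        by_contra hne
        have := hj' j (Ne.symm hne)
        rw [htj] at this
        linarith
      subst hjj
      funext i
      by_cases hij : i = j'
      · rw [hij, htj]
      · rw [hj' i hij, hj i hij]
  refine hausdorffDist_le_of_mem_dist (by positivity) ?_ ?_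
  · rintro x ⟨hxX, hx1, hx2⟩
    have hβ : 0 < 1 / (1 + b) := by positivity
    rcases hxX with ⟨h0, -⟩ | ⟨h0, h1, h2⟩
    · exact absurd h0 (by linarith)
    · have hs1 : a ≤ 1 / x.2 - 1 := by
        rw [le_div_iff₀ hpos] at hx2
        have : 1 + a ≤ 1 / x.2 := by
          rw [le_div_iff₀ h0]
          linarith
        linarith
      have hs2 : 1 / x.2 - 1 ≤ b := by
        rw [div_le_iff₀ (by linarith)] at hx1
        have : 1 / x.2 ≤ 1 + b := by
          rw [div_le_iff₀ h0]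
          linarith
        linarith
      refine ⟨(x.1, 0), ⟨rfl, ?_, ?_⟩, ?_⟩
      · show x.1 ∈ tset
        rw [h2]
        exact tp_mem _
      · intro i
        show x.1 i ≤ 1 - (1 - G _)
        rw [sub_sub_cancel, h2]
        exact G_mono ((hsc i).1 _ hs1 hs2) (Real.cos_le_one _)
      · rw [Prod.dist_eq, dist_self, max_eq_right dist_nonneg, Real.dist_eq, sub_zero,
          abs_of_pos h0]
        exact hx2
  · rintro x ⟨hx0, hxt, hxD⟩
    obtain ⟨s, hsa, hsb, hs⟩ := hkey x.1 hxt (fun i => by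
      have := hxD i
      rw [sub_sub_cancel] at this
      exact this)
    have hs0 : 0 ≤ s := ha.trans hsa
    have hs1 : 0 < 1 + s := by linarith
    refine ⟨(x.1, 1 / (1 + s)), ⟨Or.inr ⟨?_, ?_, ?_⟩, ?_, ?_⟩, ?_⟩
    · show 0 < 1 / (1 + s)
      positivity
    · show 1 / (1 + s) ≤ 1
      rw [div_le_one hs1]
      linarith
    · show x.1 = tp (1 / (1 / (1 + s)) - 1)
      rw [one_div_one_div, add_sub_cancel_left, hs]
    · show 1 / (1 + b) ≤ 1 / (1 + s)
      exact one_div_le_one_div_of_le hs1 (by linarith)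
    · show 1 / (1 + s) ≤ 1 / (1 + a)
      exact one_div_le_one_div_of_le hpos (by linarith)
    · rw [Prod.dist_eq, dist_self, max_eq_right dist_nonneg, Real.dist_eq, hx0, zero_sub, abs_neg,
        abs_of_pos (by positivity)]
      exact one_div_le_one_div_of_le hpos (by linarith)

end J13

section J15
theorem LL_mem {α β : ℝ} (ha : 0 < α) (hb : 0 ≤ β) (hba : β ≤ α) :
    0 ≤ LL α β ∧ LL α β ≤ 2 * Real.pi ∧ (LL α β < 2 * Real.pi → 0 < β ∧ LL α β = 1 / β - 1 / α) :=
  by
  have hpi := Real.pi_pos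
  set β0 : ℝ := α / (1 + 2 * Real.pi * α) with hβ0
  have hden : 0 < 1 + 2 * Real.pi * α := by positivity
  have hβ0pos : 0 < β0 := div_pos ha hden
  have hinv : 1 / β0 = 1 / α + 2 * Real.pi := by
    rw [hβ0]
    field_simp
  have hβ0le : β0 ≤ α := by
    rw [hβ0, div_le_iff₀ hden]
    have : 0 ≤ 2 * Real.pi * α := by positivity
    nlinarith
  have hM : 0 < max β β0 := lt_of_lt_of_le hβ0pos (le_max_right _ _)
  have hMle : max β β0 ≤ α := max_le hba hβ0le
  have hLL : LL α β = 1 / max β β0 - 1 / α := rfl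
  have h1 : 1 / α ≤ 1 / max β β0 := one_div_le_one_div_of_le hM hMle
  have h2 : 1 / max β β0 ≤ 1 / β0 := one_div_le_one_div_of_le hβ0pos (le_max_right _ _)
  refine ⟨by rw [hLL]; linarith, by rw [hLL]; linarith, fun h => ?_⟩
  rcases le_or_gt β β0 with hle | hgt
  · exfalso
    rw [hLL, max_eq_right hle, hinv] at h
    linarith
  · refine ⟨lt_trans hβ0pos hgt, ?_⟩
    rw [hLL, max_eq_left hgt.le]

end J15

section J16
theorem h170_mem {α β s : ℝ} (ha : 0 < α) (ha1 : α ≤ 1) (h1 : 1 / α - 1 ≤ s)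
    (h2 : β * (1 + s) ≤ 1) : ((tp s, 1 / (1 + s)) : E) ∈ Wset α β := by
  have h3 : 1 ≤ 1 / α := by rw [le_div_iff₀ ha]; linarith
  have hs : 0 < 1 + s := by linarith
  refine ⟨Or.inr ⟨?_, ?_, ?_⟩, ?_, ?_⟩
  · show 0 < 1 / (1 + s)
    positivity
  · show 1 / (1 + s) ≤ 1
    rw [div_le_one hs]; linarith
  · show tp s = tp (1 / (1 / (1 + s)) - 1)
    congr 1
    field_simp
    ring
  · show β ≤ 1 / (1 + s)
    rw [le_div_iff₀ hs]; exact h2
  · show 1 / (1 + s) ≤ α
    rw [div_le_iff₀ hs]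
    have h4 : α * (1 / α) = 1 := by field_simp
    have h5 : α * (1 / α) ≤ α * (1 + s) := mul_le_mul_of_nonneg_left (by linarith) ha.le
    linarith

theorem h170_fst_le {x : E} (hx : x ∈ Xset) (i : Fin 3) : x.1 i ≤ 1 := by
  rcases hx with ⟨-, h⟩ | ⟨-, -, h⟩
  · exact (h.1 i).2
  · rw [h]
    exact ((tp_mem _).1 i).2

theorem dl_W {α β : ℝ} (ha : 0 < α) (ha1 : α ≤ 1) (hb : 0 ≤ β) (hba : β ≤ α) :
    dl (Wset α β) = dw α β := by
  obtain ⟨l0, l1, l2⟩ := LL_mem ha hb hba
  funext i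
  unfold dl dw
  congr 1
  rcases lt_or_ge (LL α β) (2 * Real.pi) with hlt | hge
  · obtain ⟨hβ, hLL⟩ := l2 hlt
    obtain ⟨u1, s, s1, s2, s3⟩ := sup_cos (a := 1 / α - 1) (b := 1 / β - 1) (φ := ph i)
      (by linarith) (by linarith)
    have e1 : Real.pi - (1 / β - 1 - (1 / α - 1)) / 2 = hh α β := by
      unfold hh
      rw [hLL]; ring
    have e2 : (1 / α - 1 + (1 / β - 1)) / 2 + Real.pi = pp α β := by
      unfold pp aa
      rw [hLL]; ring
    rw [e1, e2] at u1 s3
    apply IsGreatest.csSup_eq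
    constructor
    · refine ⟨(tp s, 1 / (1 + s)), h170_mem ha ha1 s1 ?_, ?_⟩
      · have h4 : β * (1 / β) = 1 := by field_simp
        have h5 : β * (1 + s) ≤ β * (1 / β) := mul_le_mul_of_nonneg_left (by linarith) hβ.le
        linarith
      · show G (Real.cos (s - ph i)) = _
        rw [s3]
    · rintro y ⟨x, ⟨hx, hx1, hx2⟩, rfl⟩
      have hx0 : 0 < x.2 := lt_of_lt_of_le hβ hx1
      rcases hx with ⟨h, -⟩ | ⟨-, h3, h4⟩
      · exact absurd h hx0.ne'
      · show x.1 i ≤ _
        rw [h4]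
        show G (Real.cos (1 / x.2 - 1 - ph i)) ≤ _
        apply G_mono _ (Real.cos_le_one _)
        apply u1
        · have := one_div_le_one_div_of_le hx0 hx2
          linarith
        · have := one_div_le_one_div_of_le hβ hx1
          linarith
  · have hLL : LL α β = 2 * Real.pi := le_antisymm l1 hge
    have e1 : hh α β = 0 := by
      unfold hh
      rw [hLL]; ring
    have e2 : max 0 (hh α β - Real.arccos (Real.cos (pp α β - ph i))) = 0 := by
      rw [e1, zero_sub]
      exact max_eq_left (neg_nonpos.2 (Real.arccos_nonneg _))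
    rw [e2, Real.cos_zero, G_one]
    apply IsGreatest.csSup_eq
    constructor
    · have ht : (fun j : Fin 3 => if j = i then (1 : ℝ) else 0) ∈ tset := by
        refine ⟨?_, i, ?_⟩
        · intro j
          show 0 ≤ (if j = i then (1 : ℝ) else 0) ∧ (if j = i then (1 : ℝ) else 0) ≤ 1
          split_ifs <;> norm_num
        · intro j hj
          show (if j = i then (1 : ℝ) else 0) = 0
          rw [if_neg hj]
      obtain ⟨s, s1, s2, s3⟩ := tp_surj ht (1 / α - 1)
      refine ⟨(tp s, 1 / (1 + s)), h170_mem ha ha1 s1 ?_, ?_⟩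
      · have hpi := Real.pi_pos
        unfold LL at hLL
        have hM : 0 < max β (α / (1 + 2 * Real.pi * α)) := lt_max_of_lt_right (by positivity)
        have h1 : 1 / max β (α / (1 + 2 * Real.pi * α)) = 2 * Real.pi + 1 / α := by linarith
        have h2 : β ≤ max β (α / (1 + 2 * Real.pi * α)) := le_max_left _ _
        have hs : 0 ≤ 1 + s := by
          have h3 : 0 < 1 / α := by positivity
          linarith
        have h4 : 1 + s ≤ 1 / max β (α / (1 + 2 * Real.pi * α)) := by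
          rw [h1]; linarith
        calc β * (1 + s) ≤ max β (α / (1 + 2 * Real.pi * α)) * (1 / max β (α / (1 + 2 * Real.pi * α))) :=
              mul_le_mul h2 h4 hs hM.le
          _ = 1 := mul_one_div_cancel hM.ne'
      · show tp s i = 1
        rw [s3]
        show (if i = i then (1 : ℝ) else 0) = 1
        rw [if_pos rfl]
    · rintro y ⟨x, ⟨hx, hx1, hx2⟩, rfl⟩
      exact h170_fst_le hx i

end J16

section J17
theorem ph_zero : ph 0 = 0 := by simp [ph]

theorem cos_ph_one : Real.cos (ph 1) = -1 / 2 ∧ Real.sin (ph 1) = Real.sqrt 3 / 2 := by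
  have h : ph 1 = Real.pi - Real.pi / 3 := by
    simp only [ph, Fin.val_one, Nat.cast_one]; ring
  rw [h, Real.cos_pi_sub, Real.sin_pi_sub, Real.cos_pi_div_three, Real.sin_pi_div_three]
  constructor <;> ring

theorem cos_ph_two : Real.cos (ph 2) = -1 / 2 ∧ Real.sin (ph 2) = -(Real.sqrt 3 / 2) := by
  have h : ph 2 = Real.pi / 3 + Real.pi := by
    simp only [ph, Fin.val_two, Nat.cast_ofNat]; ring
  rw [h, Real.cos_add_pi, Real.sin_add_pi, Real.cos_pi_div_three, Real.sin_pi_div_three]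
  constructor <;> ring

theorem cos_three (p : ℝ) :
    Real.cos (p - ph 0) + Real.cos (p - ph 1) + Real.cos (p - ph 2) = 0 ∧
    Real.cos (p - ph 0) ^ 2 + Real.cos (p - ph 1) ^ 2 + Real.cos (p - ph 2) ^ 2 = 3 / 2 := by
  rw [Real.cos_sub, Real.cos_sub, Real.cos_sub, ph_zero, Real.cos_zero, Real.sin_zero,
    cos_ph_one.1, cos_ph_one.2, cos_ph_two.1, cos_ph_two.2]
  have h3 : Real.sqrt 3 ^ 2 = 3 := Real.sq_sqrt (by norm_num)
  have h1 := Real.sin_sq_add_cos_sq p
  constructor
  · ring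
  · have : (Real.cos p * 1 + Real.sin p * 0) ^ 2 +
        (Real.cos p * (-1 / 2) + Real.sin p * (Real.sqrt 3 / 2)) ^ 2 +
        (Real.cos p * (-1 / 2) + Real.sin p * -(Real.sqrt 3 / 2)) ^ 2 =
        3 / 2 * Real.cos p ^ 2 + Real.sin p ^ 2 * (Real.sqrt 3 ^ 2) / 2 := by ring
    rw [this, h3]
    linarith

theorem two_aux {k a b x y : ℝ} (hk : 0 < k) (hk2 : k ^ 2 = 4 / 3) (ha0 : 0 ≤ a) (hb0 : 0 ≤ b)
    (h : a ^ 2 + b ^ 2 + a * b = 3 / 4) (hx : min 1 (k * a) ≤ x) (hy : min 1 (k * b) ≤ y) :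
    1 ≤ x + y := by
  have hka : 0 ≤ k * a := mul_nonneg hk.le ha0
  have hkb : 0 ≤ k * b := mul_nonneg hk.le hb0
  have h1 : 1 ≤ k * a + k * b := by
    by_contra hc
    push Not at hc
    have h2 : (k * a + k * b) ^ 2 < 1 := by nlinarith
    have h3 : (k * a + k * b) ^ 2 = 4 / 3 * (a ^ 2 + b ^ 2 + a * b + a * b) := by
      rw [← hk2]; ring
    rw [h3, h] at h2
    have := mul_nonneg ha0 hb0
    linarith
  rcases le_total 1 (k * a) with ha1 | ha1
  · rw [min_eq_left ha1] at hx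
    have : 0 ≤ min 1 (k * b) := le_min zero_le_one hkb
    linarith
  · rw [min_eq_right ha1] at hx
    rcases le_total 1 (k * b) with hb1 | hb1
    · rw [min_eq_left hb1] at hy
      linarith
    · rw [min_eq_right hb1] at hy
      linarith

theorem one_aux {k a b c x : ℝ} (hk : 0 < k) (hk2 : k ^ 2 = 4 / 3) (ha0 : 0 ≤ a) (hb0 : b ≤ 0)
    (hc0 : c ≤ 0) (hs : a + b + c = 0) (hq : a ^ 2 + b ^ 2 + c ^ 2 = 3 / 2)
    (hx : min 1 (k * a) ≤ x) : 1 ≤ x := by
  have hka : 0 ≤ k * a := mul_nonneg hk.le ha0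
  have h1 : 1 ≤ k * a := by
    by_contra hcon
    push Not at hcon
    have h2 : (k * a) ^ 2 < 1 := by nlinarith
    have h3 : (k * a) ^ 2 = 4 / 3 * a ^ 2 := by rw [← hk2]; ring
    have h4 : a ^ 2 = 3 / 4 + b * c := by
      have : a = -(b + c) := by linarith
      subst this
      nlinarith
    have := mul_nonneg_of_nonpos_of_nonpos hb0 hc0
    rw [h3, h4] at h2
    linarith
  rwa [min_eq_left h1] at hx

theorem three_aux {k a b c x y z : ℝ} (hk : 0 < k) (hk2 : k ^ 2 = 4 / 3)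
    (hs : a + b + c = 0) (hq : a ^ 2 + b ^ 2 + c ^ 2 = 3 / 2)
    (hx0 : 0 ≤ x) (hy0 : 0 ≤ y) (hz0 : 0 ≤ z)
    (hx : 0 ≤ a → min 1 (k * a) ≤ x) (hy : 0 ≤ b → min 1 (k * b) ≤ y)
    (hz : 0 ≤ c → min 1 (k * c) ≤ z) : 1 ≤ x + y + z := by
  rcases le_total 0 a with ha | ha <;> rcases le_total 0 b with hb | hb <;>
    rcases le_total 0 c with hc | hc
  · have h : a ^ 2 + b ^ 2 + a * b = 3 / 4 := by
      have : c = -(a + b) := by linarith
      subst this; nlinarith
    linarith [two_aux hk hk2 ha hb h (hx ha) (hy hb)]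
  · have h : a ^ 2 + b ^ 2 + a * b = 3 / 4 := by
      have : c = -(a + b) := by linarith
      subst this; nlinarith
    linarith [two_aux hk hk2 ha hb h (hx ha) (hy hb)]
  · have h : a ^ 2 + c ^ 2 + a * c = 3 / 4 := by
      have : b = -(a + c) := by linarith
      subst this; nlinarith
    linarith [two_aux hk hk2 ha hc h (hx ha) (hz hc)]
  · linarith [one_aux hk hk2 ha hb hc hs hq (hx ha)]
  · have h : b ^ 2 + c ^ 2 + b * c = 3 / 4 := by
      have : a = -(b + c) := by linarith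
      subst this; nlinarith
    linarith [two_aux hk hk2 hb hc h (hy hb) (hz hc)]
  · linarith [one_aux hk hk2 hb ha hc (by linarith : b + a + c = 0)
      (by linarith : b ^ 2 + a ^ 2 + c ^ 2 = 3 / 2) (hy hb)]
  · linarith [one_aux hk hk2 hc ha hb (by linarith : c + a + b = 0)
      (by linarith : c ^ 2 + a ^ 2 + b ^ 2 = 3 / 2) (hz hc)]
  · exfalso
    have ha' : a = 0 := by linarith
    have hb' : b = 0 := by linarith
    have hc' : c = 0 := by linarith
    rw [ha', hb', hc'] at hq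
    norm_num at hq

theorem term_ge {c h : ℝ} (hc : 0 ≤ c) (hc1 : c ≤ 1) (hh : Real.pi / 2 ≤ h)
    (h1 : h ≤ Real.pi) :
    min 1 (2 / Real.sqrt 3 * c) ≤ 1 - G (Real.cos (max 0 (h - Real.arccos c))) := by
  have ha : Real.arccos c ≤ Real.pi / 2 := Real.arccos_le_pi_div_two.mpr hc
  have ha0 : 0 ≤ Real.arccos c := Real.arccos_nonneg c
  have hm : max 0 (h - Real.arccos c) = h - Real.arccos c := max_eq_right (by linarith)
  rw [hm]
  have hcos : Real.cos (h - Real.arccos c) ≤ Real.sqrt (1 - c ^ 2) := by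
    have h2 : Real.cos (h - Real.arccos c) ≤ Real.cos (Real.pi / 2 - Real.arccos c) :=
      Real.cos_le_cos_of_nonneg_of_le_pi (by linarith) (by linarith) (by linarith)
    rwa [Real.cos_pi_div_two_sub, Real.sin_arccos] at h2
  have hc2 : 0 ≤ 1 - c ^ 2 := by nlinarith
  have hsq1 : Real.sqrt (1 - c ^ 2) ≤ 1 := by
    exact Real.sqrt_le_one.mpr (by nlinarith [sq_nonneg c])
  have hG := G_mono hcos hsq1
  have hGv : G (Real.sqrt (1 - c ^ 2)) = max 0 (1 - 2 / Real.sqrt 3 * c) := by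
    unfold G
    rw [max_eq_left (Real.sqrt_nonneg _), Real.sq_sqrt hc2]
    have : 1 - (1 - c ^ 2) = c ^ 2 := by ring
    rw [this, Real.sqrt_sq hc]
  rw [hGv] at hG
  rcases le_total 0 (1 - 2 / Real.sqrt 3 * c) with hcase | hcase
  · rw [max_eq_right hcase] at hG
    rw [min_eq_right (by linarith)]
    linarith
  · rw [max_eq_left hcase] at hG
    rw [min_eq_left (by linarith)]
    linarith

theorem dw_mem (α β : ℝ) (i : Fin 3) : 0 ≤ dw α β i ∧ dw α β i ≤ 1 := by
  unfold dw
  constructor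
  · linarith [G_le_one (Real.cos (max 0 (hh α β - Real.arccos (Real.cos (pp α β - ph i)))))]
  · linarith [G_nonneg (Real.cos (max 0 (hh α β - Real.arccos (Real.cos (pp α β - ph i)))))]

theorem sg_ge_one {h p : ℝ} (hh : Real.pi / 2 ≤ h) (h1 : h ≤ Real.pi) :
    1 ≤ sg (fun i => 1 - G (Real.cos (max 0 (h - Real.arccos (Real.cos (p - ph i)))))) := by
  unfold sg
  have h3 : (0:ℝ) < Real.sqrt 3 := Real.sqrt_pos.mpr (by norm_num)
  have hk : 0 < 2 / Real.sqrt 3 := by positivity
  have hk2 : (2 / Real.sqrt 3) ^ 2 = 4 / 3 := by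
    rw [div_pow, Real.sq_sqrt (by norm_num)]; norm_num
  obtain ⟨hs, hq⟩ := cos_three p
  have hnn : ∀ i : Fin 3, 0 ≤ 1 - G (Real.cos (max 0 (h - Real.arccos (Real.cos (p - ph i))))) := by
    intro i
    linarith [G_le_one (Real.cos (max 0 (h - Real.arccos (Real.cos (p - ph i)))))]
  have hterm : ∀ i : Fin 3, 0 ≤ Real.cos (p - ph i) → min 1 (2 / Real.sqrt 3 * Real.cos (p - ph i)) ≤
      1 - G (Real.cos (max 0 (h - Real.arccos (Real.cos (p - ph i))))) := by
    intro i hi
    exact term_ge hi (Real.cos_le_one _) hh h1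
  exact three_aux hk hk2 hs hq (hnn 0) (hnn 1) (hnn 2) (hterm 0) (hterm 1) (hterm 2)

theorem dw_zero {h p : ℝ} (hh : h ≤ Real.pi / 2) :
    ∃ i, 1 - G (Real.cos (max 0 (h - Real.arccos (Real.cos (p - ph i))))) = 0 := by
  obtain ⟨hs, -⟩ := cos_three p
  have key : ∀ i : Fin 3, Real.cos (p - ph i) ≤ 0 →
      1 - G (Real.cos (max 0 (h - Real.arccos (Real.cos (p - ph i))))) = 0 := by
    intro i hi
    have h1 : Real.pi / 2 ≤ Real.arccos (Real.cos (p - ph i)) := by
      by_contra hc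
      push Not at hc
      have := Real.arccos_lt_pi_div_two.mp hc
      linarith
    rw [max_eq_left (by linarith), Real.cos_zero, G_one]
    ring
  rcases le_total (Real.cos (p - ph 0)) 0 with h0 | h0
  · exact ⟨0, key 0 h0⟩
  · rcases le_total (Real.cos (p - ph 1)) 0 with h1 | h1
    · exact ⟨1, key 1 h1⟩
    · exact ⟨2, key 2 (by linarith)⟩

end J17

section J18
theorem re_pos_re {p : ℝ} (δ : Fin 3 → ℝ) :
    (ze δ * Complex.exp (-((p : ℝ) : ℂ) * Complex.I)).re = ∑ i, δ i * Real.cos (p - ph i) := by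
  unfold ze
  rw [Finset.sum_mul, Complex.re_sum]
  refine Finset.sum_congr rfl fun i _ => ?_
  have e : ((δ i : ℝ) : ℂ) * Complex.exp (((ph i : ℝ) : ℂ) * Complex.I) *
      Complex.exp (-((p : ℝ) : ℂ) * Complex.I) =
      ((δ i : ℝ) : ℂ) * Complex.exp (((ph i - p : ℝ) : ℂ) * Complex.I) := by
    rw [mul_assoc, ← Complex.exp_add]
    congr 2
    push_cast
    ring
  rw [e, Complex.re_ofReal_mul, Complex.exp_ofReal_mul_I_re]
  have e2 : Real.cos (ph i - p) = Real.cos (p - ph i) := by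
    rw [← Real.cos_neg]
    congr 1
    ring
  rw [e2]

theorem re_pos {h p : ℝ} {δ : Fin 3 → ℝ} (hh : h ≤ Real.pi / 2)
    (hδ : δ = fun i => 1 - G (Real.cos (max 0 (h - Real.arccos (Real.cos (p - ph i))))))
    (hs : 0 < sg δ) : 0 < (ze δ * Complex.exp (-((p : ℝ) : ℂ) * Complex.I)).re := by
  have h0 : ∀ i, 0 ≤ δ i := by
    intro i
    rw [hδ]
    have := G_le_one (Real.cos (max 0 (h - Real.arccos (Real.cos (p - ph i)))))
    show 0 ≤ 1 - _
    linarith
  have h1 : ∀ i, 0 < δ i → 0 < δ i * Real.cos (p - ph i) := by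
    intro i hi
    apply mul_pos hi
    rw [hδ] at hi
    by_contra hc
    have h2 : Real.pi / 2 ≤ Real.arccos (Real.cos (p - ph i)) := by
      by_contra h3
      push Not at h3
      exact hc (Real.arccos_lt_pi_div_two.1 h3)
    have h4 : max 0 (h - Real.arccos (Real.cos (p - ph i))) = 0 := max_eq_left (by linarith)
    have h5 : (0 : ℝ) < 1 - G (Real.cos (max 0 (h - Real.arccos (Real.cos (p - ph i))))) := hi
    rw [h4, Real.cos_zero, G_one] at h5
    linarith
  have h2 : ∀ i, 0 ≤ δ i * Real.cos (p - ph i) := by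
    intro i
    rcases (h0 i).eq_or_lt with h3 | h3
    · rw [← h3, zero_mul]
    · exact (h1 i h3).le
  rw [re_pos_re]
  have h3 : ∃ i, 0 < δ i := by
    by_contra hc
    push Not at hc
    unfold sg at hs
    linarith [hc 0, hc 1, hc 2]
  obtain ⟨i, hi⟩ := h3
  exact Finset.sum_pos' (fun j _ => h2 j) ⟨i, Finset.mem_univ _, h1 i hi⟩

theorem dw_full {α β : ℝ} (h : hh α β = 0) : dw α β = 0 := by
  funext i
  unfold dw
  rw [h]
  have h1 : max 0 (0 - Real.arccos (Real.cos (pp α β - ph i))) = 0 :=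
    max_eq_left (by linarith [Real.arccos_nonneg (Real.cos (pp α β - ph i))])
  rw [h1, Real.cos_zero, G_one]
  simp

end J18

section J19
theorem norm_ze_ge {δ : Fin 3 → ℝ} (h0 : ∀ i, 0 ≤ δ i) (hz : ∃ i, δ i = 0) :
    sg δ / 2 ≤ ‖ze δ‖ := by
  have p0 : ph 0 = 0 := by simp [ph]
  have p1 : ph 1 = Real.pi - Real.pi / 3 := by simp [ph]; ring
  have p2 : ph 2 = Real.pi / 3 + Real.pi := by simp [ph]; ring
  have c1 : Real.cos (ph 1) = -(1 / 2) := by
    rw [p1, Real.cos_pi_sub, Real.cos_pi_div_three]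
  have s1 : Real.sin (ph 1) = Real.sqrt 3 / 2 := by
    rw [p1, Real.sin_pi_sub, Real.sin_pi_div_three]
  have c2 : Real.cos (ph 2) = -(1 / 2) := by
    rw [p2, Real.cos_add_pi, Real.cos_pi_div_three]
  have s2 : Real.sin (ph 2) = -(Real.sqrt 3 / 2) := by
    rw [p2, Real.sin_add_pi, Real.sin_pi_div_three]
  have hre : (ze δ).re = δ 0 - (δ 1 + δ 2) / 2 := by
    unfold ze
    rw [Fin.sum_univ_three]
    simp only [Complex.add_re, Complex.re_ofReal_mul, Complex.exp_ofReal_mul_I_re]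
    rw [p0, c1, c2, Real.cos_zero]
    ring
  have him : (ze δ).im = Real.sqrt 3 / 2 * (δ 1 - δ 2) := by
    unfold ze
    rw [Fin.sum_univ_three]
    simp only [Complex.add_im, Complex.im_ofReal_mul, Complex.exp_ofReal_mul_I_im]
    rw [p0, s1, s2, Real.sin_zero]
    ring
  have h3 : Real.sqrt 3 ^ 2 = 3 := Real.sq_sqrt (by norm_num)
  have hsq : ‖ze δ‖ ^ 2 = δ 0 ^ 2 + δ 1 ^ 2 + δ 2 ^ 2 - δ 0 * δ 1 - δ 0 * δ 2 - δ 1 * δ 2 := by
    rw [Complex.sq_norm, Complex.normSq_apply, hre, him]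
    linear_combination (1 / 4 * (δ 1 - δ 2) ^ 2) * h3
  have hs : sg δ = δ 0 + δ 1 + δ 2 := rfl
  have hle : (sg δ / 2) ^ 2 ≤ ‖ze δ‖ ^ 2 := by
    rw [hsq, hs]
    obtain ⟨i, hi⟩ := hz
    fin_cases i
    · have hi' : δ 0 = 0 := hi
      rw [hi']; nlinarith [sq_nonneg (δ 1 - δ 2)]
    · have hi' : δ 1 = 0 := hi
      rw [hi']; nlinarith [sq_nonneg (δ 0 - δ 2)]
    · have hi' : δ 2 = 0 := hi
      rw [hi']; nlinarith [sq_nonneg (δ 0 - δ 1)]
  exact abs_le_of_sq_le_sq' hle (norm_nonneg _) |>.2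

end J19

section J20
theorem Dd_mem (δ : Fin 3 → ℝ) (i : Fin 3) : 0 ≤ Dd δ i ∧ Dd δ i ≤ 1 := by
  unfold Dd
  have h1 := G_nonneg (Real.cos (max 0 (eta (sg δ) - Real.arccos (cc δ i))))
  have h2 := G_le_one (Real.cos (max 0 (eta (sg δ) - Real.arccos (cc δ i))))
  constructor <;> linarith

theorem Dd_eighth {δ : Fin 3 → ℝ} (hs : sg δ ≤ 1 / 8 ∨ 7 / 8 ≤ sg δ) : Dd δ = 0 := by
  have he : eta (sg δ) = 0 := by
    unfold eta
    have : max 0 (min 1 (min (8 * sg δ - 1) (7 - 8 * sg δ))) = 0 := by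
      apply max_eq_left
      rcases hs with h | h
      · exact (min_le_right _ _).trans ((min_le_left _ _).trans (by linarith))
      · exact (min_le_right _ _).trans ((min_le_right _ _).trans (by linarith))
    rw [this, mul_zero]
  funext i
  unfold Dd
  rw [he, max_eq_left (by have := Real.arccos_nonneg (cc δ i); linarith), Real.cos_zero, G_one]
  simp

theorem Dd_cont : ContinuousOn Dd {δ | (∀ i, 0 ≤ δ i) ∧ 0 < sg δ} := by
  have hsg : Continuous sg := by unfold sg; fun_prop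
  have hze : Continuous ze := by unfold ze; fun_prop
  have hal : Continuous al := by unfold al; fun_prop
  have heta : Continuous eta := by unfold eta; fun_prop
  have hcc : ∀ i, ContinuousOn (fun δ => cc δ i) {δ | (∀ i, 0 ≤ δ i) ∧ 0 < sg δ} := by
    intro i
    unfold cc
    refine Complex.continuous_re.comp_continuousOn ?_
    refine ContinuousOn.mul (ContinuousOn.mul ?_ ?_) continuousOn_const
    · have h1 : Continuous (fun δ : Fin 3 → ℝ =>
          Complex.exp (((al (sg δ) : ℝ) : ℂ) * Complex.I)) :=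
        Complex.continuous_exp.comp
          ((Complex.continuous_ofReal.comp (hal.comp hsg)).mul continuous_const)
      exact h1.continuousOn
    · refine ContinuousOn.div hze.continuousOn ?_ ?_
      · have h2 : Continuous (fun δ : Fin 3 → ℝ => ((max ‖ze δ‖ (sg δ / 2) : ℝ) : ℂ)) :=
          Complex.continuous_ofReal.comp (hze.norm.max (hsg.div_const 2))
        exact h2.continuousOn
      · intro δ hδ
        have h3 : 0 < max ‖ze δ‖ (sg δ / 2) := lt_max_of_lt_right (half_pos hδ.2)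
        exact_mod_cast h3.ne'
  rw [continuousOn_pi]
  intro i
  unfold Dd
  have h4 : ContinuousOn (fun δ => max 0 (eta (sg δ) - Real.arccos (cc δ i)))
      {δ | (∀ i, 0 ≤ δ i) ∧ 0 < sg δ} :=
    ContinuousOn.sup continuousOn_const ((heta.comp hsg).continuousOn.sub
      (Real.continuous_arccos.comp_continuousOn (hcc i)))
  exact continuousOn_const.sub (G_cont.comp_continuousOn (Real.continuous_cos.comp_continuousOn h4))

end J20

section J21
theorem dnf_form (w : ℂ) (φ : ℝ) : (w * Complex.exp (-((φ : ℝ) : ℂ) * Complex.I)).re =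
    w.re * Real.cos φ + w.im * Real.sin φ := by
  have e : -((φ : ℝ) : ℂ) * Complex.I = ((-φ : ℝ) : ℂ) * Complex.I := by push_cast; ring
  rw [e, Complex.mul_re, Complex.exp_ofReal_mul_I_re, Complex.exp_ofReal_mul_I_im, Real.cos_neg,
    Real.sin_neg]
  ring

theorem dnf_c0 : Real.cos (ph 0) = 1 ∧ Real.sin (ph 0) = 0 := by
  have e : ph 0 = 0 := by simp [ph]
  rw [e]
  exact ⟨Real.cos_zero, Real.sin_zero⟩

theorem dnf_c1 : Real.cos (ph 1) = -(1 / 2) ∧ Real.sin (ph 1) = Real.sqrt 3 / 2 := by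
  have e : ph 1 = Real.pi - Real.pi / 3 := by
    simp only [ph, Fin.val_one, Nat.cast_one]
    ring
  rw [e, Real.cos_pi_sub, Real.sin_pi_sub, Real.cos_pi_div_three, Real.sin_pi_div_three]
  exact ⟨rfl, rfl⟩

theorem dnf_c2 : Real.cos (ph 2) = -(1 / 2) ∧ Real.sin (ph 2) = -(Real.sqrt 3 / 2) := by
  have e : ph 2 = Real.pi / 3 + Real.pi := by
    simp only [ph, Fin.val_two, Nat.cast_ofNat]
    ring
  rw [e, Real.cos_add_pi, Real.sin_add_pi, Real.cos_pi_div_three, Real.sin_pi_div_three]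
  exact ⟨rfl, rfl⟩

theorem dnf_ze (δ : Fin 3 → ℝ) : (ze δ).re = δ 0 - δ 1 / 2 - δ 2 / 2 ∧
    (ze δ).im = Real.sqrt 3 / 2 * (δ 1 - δ 2) := by
  unfold ze
  obtain ⟨a0, b0⟩ := dnf_c0
  obtain ⟨a1, b1⟩ := dnf_c1
  obtain ⟨a2, b2⟩ := dnf_c2
  rw [Fin.sum_univ_three]
  simp only [Complex.add_re, Complex.add_im, Complex.re_ofReal_mul, Complex.im_ofReal_mul,
    Complex.exp_ofReal_mul_I_re, Complex.exp_ofReal_mul_I_im, a0, b0, a1, b1, a2, b2]
  constructor <;> ring

theorem dnf_exp {σ : ℝ} (h : σ ≤ 3 / 8 ∨ 5 / 8 ≤ σ) :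
    Complex.exp (((al σ : ℝ) : ℂ) * Complex.I) = -1 := by
  rcases h with h | h
  · have e : al σ = -Real.pi := by
      unfold al
      rw [min_eq_right (by linarith), max_eq_left (by linarith)]
      ring
    rw [e]
    have e2 : ((-Real.pi : ℝ) : ℂ) * Complex.I = -((Real.pi : ℂ) * Complex.I) := by
      push_cast
      ring
    rw [e2, Complex.exp_neg, Complex.exp_pi_mul_I]
    norm_num
  · have e : al σ = Real.pi := by
      unfold al
      rw [min_eq_left (by linarith), max_eq_right (by norm_num)]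
      ring
    rw [e, Complex.exp_pi_mul_I]

theorem dnf_eta_le (σ : ℝ) : eta σ ≤ Real.pi / 2 := by
  unfold eta
  have h1 : max 0 (min 1 (min (8 * σ - 1) (7 - 8 * σ))) ≤ 1 :=
    max_le zero_le_one (min_le_left _ _)
  have := Real.pi_pos
  calc Real.pi / 2 * max 0 (min 1 (min (8 * σ - 1) (7 - 8 * σ))) ≤ Real.pi / 2 * 1 :=
        mul_le_mul_of_nonneg_left h1 (by positivity)
    _ = Real.pi / 2 := mul_one _

theorem dnf_eta {σ : ℝ} (h1 : 3 / 8 ≤ σ) (h2 : σ ≤ 5 / 8) : eta σ = Real.pi / 2 := by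
  unfold eta
  rw [min_eq_left (le_min (by linarith) (by linarith)), max_eq_right zero_le_one, mul_one]

theorem dnf_G {c : ℝ} (h0 : 0 ≤ c) (h1 : c ≤ 1) :
    G (Real.cos (max 0 (Real.pi / 2 - Real.arccos c))) = max 0 (1 - 2 / Real.sqrt 3 * c) := by
  have e : Real.pi / 2 - Real.arccos c = Real.arcsin c := by
    rw [Real.arccos_eq_pi_div_two_sub_arcsin]
    ring
  have hc2 : 0 ≤ 1 - c ^ 2 := by nlinarith
  rw [e, max_eq_right (Real.arcsin_nonneg.2 h0), Real.cos_arcsin]
  unfold G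
  rw [max_eq_left (Real.sqrt_nonneg _), Real.sq_sqrt hc2]
  have e2 : 1 - (1 - c ^ 2) = c ^ 2 := by ring
  rw [e2, Real.sqrt_sq h0]

theorem Dd_no_fixed {δ : Fin 3 → ℝ} (h0 : ∀ i, 0 ≤ δ i) (hs : 1 / 8 < sg δ)
    (hD : Dd δ = δ) : False := by
  obtain ⟨a0, b0⟩ := dnf_c0
  obtain ⟨a1, b1⟩ := dnf_c1
  obtain ⟨a2, b2⟩ := dnf_c2
  have p0 := h0 0
  have p1 := h0 1
  have p2 := h0 2
  have hsg : sg δ = δ 0 + δ 1 + δ 2 := rfl
  have h3 : Real.sqrt 3 * Real.sqrt 3 = 3 := Real.mul_self_sqrt (by norm_num)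
  have h3pos : 0 < Real.sqrt 3 := Real.sqrt_pos.2 (by norm_num)
  obtain ⟨N, hN⟩ : ∃ N : ℝ, N = max ‖ze δ‖ (sg δ / 2) := ⟨_, rfl⟩
  have hNpos : 0 < N := by
    rw [hN]
    exact lt_max_of_lt_right (by linarith)
  obtain ⟨w, hw⟩ : ∃ w : ℂ, w = Complex.exp (((al (sg δ) : ℝ) : ℂ) * Complex.I) *
    (ze δ / ((N : ℝ) : ℂ)) := ⟨_, rfl⟩
  have hcc : ∀ i, cc δ i = w.re * Real.cos (ph i) + w.im * Real.sin (ph i) := by
    intro i
    unfold cc
    rw [← hN, ← hw]
    exact dnf_form w (ph i)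
  have c0 : cc δ 0 = w.re := by rw [hcc, a0, b0]; ring
  have c1 : cc δ 1 = -(w.re / 2) + Real.sqrt 3 / 2 * w.im := by rw [hcc, a1, b1]; ring
  have c2 : cc δ 2 = -(w.re / 2) - Real.sqrt 3 / 2 * w.im := by rw [hcc, a2, b2]; ring
  have key1 : ∀ i, cc δ i ≤ 0 → δ i = 0 := by
    intro i hi
    have h1 := (not_lt.1 (fun h => absurd (Real.arccos_lt_pi_div_two.1 h) (not_lt.2 hi)))
    have h2 := dnf_eta_le (sg δ)
    have h4 : Dd δ i = 0 := by
      unfold Dd
      rw [max_eq_left (by linarith), Real.cos_zero, G_one, sub_self]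
    have h5 := congrFun hD i
    linarith
  by_cases hA : sg δ ≤ 3 / 8 ∨ 5 / 8 ≤ sg δ
  · have hexp := dnf_exp hA
    rw [hexp] at hw
    obtain ⟨z1, z2⟩ := dnf_ze δ
    have hwre : w.re = -(δ 0 - δ 1 / 2 - δ 2 / 2) / N := by
      rw [hw, ← z1]
      simp only [neg_mul, one_mul, Complex.neg_re, Complex.div_ofReal_re]
      ring
    have hwim : w.im = -(Real.sqrt 3 / 2 * (δ 1 - δ 2)) / N := by
      rw [hw, ← z2]
      simp only [neg_mul, one_mul, Complex.neg_im, Complex.div_ofReal_im]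
      ring
    have d0 : cc δ 0 = -(δ 0 - δ 1 / 2 - δ 2 / 2) / N := by rw [c0, hwre]
    have d1 : cc δ 1 = -(δ 1 - δ 0 / 2 - δ 2 / 2) / N := by
      rw [c1, hwre, hwim]
      field_simp
      linear_combination (-(δ 1 - δ 2)) * h3
    have d2 : cc δ 2 = -(δ 2 - δ 0 / 2 - δ 1 / 2) / N := by
      rw [c2, hwre, hwim]
      field_simp
      linear_combination (δ 1 - δ 2) * h3
    have f0 : δ 1 / 2 + δ 2 / 2 ≤ δ 0 → δ 0 = 0 := by
      intro h
      apply key1
      rw [d0]
      exact div_nonpos_of_nonpos_of_nonneg (by linarith) hNpos.le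
    have f1 : δ 0 / 2 + δ 2 / 2 ≤ δ 1 → δ 1 = 0 := by
      intro h
      apply key1
      rw [d1]
      exact div_nonpos_of_nonpos_of_nonneg (by linarith) hNpos.le
    have f2 : δ 0 / 2 + δ 1 / 2 ≤ δ 2 → δ 2 = 0 := by
      intro h
      apply key1
      rw [d2]
      exact div_nonpos_of_nonpos_of_nonneg (by linarith) hNpos.le
    rcases le_total (δ 0) (δ 1) with h01 | h01
    · rcases le_total (δ 1) (δ 2) with h12 | h12
      · have := f2 (by linarith)
        linarith
      · have := f1 (by linarith)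
        linarith
    · rcases le_total (δ 0) (δ 2) with h02 | h02
      · have := f2 (by linarith)
        linarith
      · have := f0 (by linarith)
        linarith
  · rw [not_or, not_le, not_le] at hA
    have heta := dnf_eta hA.1.le hA.2.le
    have hsum : cc δ 0 + cc δ 1 + cc δ 2 = 0 := by rw [c0, c1, c2]; ring
    have hneg : ∃ i, δ i = 0 := by
      by_contra hcon
      push Not at hcon
      have q : ∀ i, 0 < cc δ i := fun i => by
        by_contra hle
        exact hcon i (key1 i (not_lt.1 hle))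
      linarith [q 0, q 1, q 2]
    have hNz : N = ‖ze δ‖ := by
      rw [hN]
      exact max_eq_left (norm_ze_ge h0 hneg)
    have hwn : ‖w‖ = 1 := by
      rw [hw, norm_mul, Complex.norm_exp_ofReal_mul_I, one_mul, norm_div, Complex.norm_real,
        Real.norm_eq_abs, abs_of_pos hNpos, ← hNz]
      exact div_self hNpos.ne'
    have hw2 : w.re ^ 2 + w.im ^ 2 = 1 := by
      have h1 := Complex.normSq_eq_norm_sq w
      rw [hwn, Complex.normSq_apply] at h1
      linarith
    have hle1 : ∀ i, cc δ i ≤ 1 := by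
      intro i
      rw [hcc]
      nlinarith [sq_nonneg (w.re - Real.cos (ph i)), sq_nonneg (w.im - Real.sin (ph i)),
        Real.sin_sq_add_cos_sq (ph i)]
    have hlt1 : ∀ i, δ i < 1 := by
      intro i
      fin_cases i
      · change δ 0 < 1
        linarith
      · change δ 1 < 1
        linarith
      · change δ 2 < 1
        linarith
    have hform : ∀ i, max (cc δ i) 0 = Real.sqrt 3 / 2 * δ i := by
      intro i
      rcases le_total (cc δ i) 0 with h | h
      · rw [max_eq_right h, key1 i h, mul_zero]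
      · rw [max_eq_left h]
        have h5 := congrFun hD i
        unfold Dd at h5
        rw [heta, dnf_G h (hle1 i)] at h5
        have h6 := hlt1 i
        have h7 : max 0 (1 - 2 / Real.sqrt 3 * cc δ i) = 1 - 2 / Real.sqrt 3 * cc δ i := by
          rcases max_choice 0 (1 - 2 / Real.sqrt 3 * cc δ i) with h8 | h8
          · rw [h8] at h5
            linarith
          · exact h8
        rw [h7] at h5
        have h9 : 2 / Real.sqrt 3 * cc δ i = δ i := by linarith
        rw [← h9]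
        field_simp
    have hsq : cc δ 0 ^ 2 + cc δ 1 ^ 2 + cc δ 2 ^ 2 = 3 / 2 := by
      rw [c0, c1, c2]
      linear_combination (3 / 2) * hw2 + (w.im ^ 2 / 2) * h3
    have hn : ∀ i, ∃ t u : ℝ, 0 ≤ t ∧ 0 ≤ u ∧ t * u = 0 ∧ cc δ i = t - u ∧
        t = Real.sqrt 3 / 2 * δ i := by
      intro i
      refine ⟨max (cc δ i) 0, max (-cc δ i) 0, le_max_right _ _, le_max_right _ _, ?_, ?_,
        hform i⟩
      · rcases le_total (cc δ i) 0 with h | h
        · rw [max_eq_right h, zero_mul]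
        · rw [max_eq_right (by linarith : -cc δ i ≤ 0), mul_zero]
      · rcases le_total (cc δ i) 0 with h | h
        · rw [max_eq_right h, max_eq_left (by linarith)]
          ring
        · rw [max_eq_left h, max_eq_right (by linarith)]
          ring
    obtain ⟨t0, u0, t0p, u0p, tu0, e0, g0⟩ := hn 0
    obtain ⟨t1, u1, t1p, u1p, tu1, e1, g1⟩ := hn 1
    obtain ⟨t2, u2, t2p, u2p, tu2, e2, g2⟩ := hn 2
    have hP : t0 + t1 + t2 = u0 + u1 + u2 := by
      rw [e0, e1, e2] at hsum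
      linarith
    have hPs : t0 + t1 + t2 = Real.sqrt 3 / 2 * sg δ := by rw [g0, g1, g2, hsg]; ring
    have hsq2 : t0 ^ 2 + t1 ^ 2 + t2 ^ 2 + (u0 ^ 2 + u1 ^ 2 + u2 ^ 2) = 3 / 2 := by
      rw [e0, e1, e2] at hsq
      linear_combination hsq + 2 * tu0 + 2 * tu1 + 2 * tu2
    have m1 : t0 ^ 2 + t1 ^ 2 + t2 ^ 2 ≤ (t0 + t1 + t2) ^ 2 := by
      have q1 := mul_nonneg t0p t1p
      have q2 := mul_nonneg t0p t2p
      have q3 := mul_nonneg t1p t2p
      linarith [(by ring : (t0 + t1 + t2) ^ 2 = t0 ^ 2 + t1 ^ 2 + t2 ^ 2 + 2 * (t0 * t1) +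
        2 * (t0 * t2) + 2 * (t1 * t2))]
    have m2 : u0 ^ 2 + u1 ^ 2 + u2 ^ 2 ≤ (u0 + u1 + u2) ^ 2 := by
      have q1 := mul_nonneg u0p u1p
      have q2 := mul_nonneg u0p u2p
      have q3 := mul_nonneg u1p u2p
      linarith [(by ring : (u0 + u1 + u2) ^ 2 = u0 ^ 2 + u1 ^ 2 + u2 ^ 2 + 2 * (u0 * u1) +
        2 * (u0 * u2) + 2 * (u1 * u2))]
    rw [← hP] at m2
    have m3 : (t0 + t1 + t2) ^ 2 = 3 / 4 * sg δ ^ 2 := by
      rw [hPs]
      linear_combination (sg δ ^ 2 / 4) * h3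
    have m4 : sg δ ^ 2 ≤ (5 / 8) ^ 2 := pow_le_pow_left₀ (by linarith) hA.2.le 2
    linarith

end J21

section J22
theorem Q_mem {α β : ℝ} (ha : 0 < α) (ha1 : α ≤ 1) (hb : 0 ≤ β) (hba : β ≤ α) :
    0 < Q1 α β ∧ Q1 α β ≤ 1 ∧ 0 ≤ Q2 α β ∧ Q2 α β ≤ Q1 α β := by
  have hpi := Real.pi_pos
  have ha0 : 0 ≤ ast α β := le_max_left _ _
  have heta : eta (sh α β) ≤ Real.pi / 2 := by
    unfold eta
    have h1 : max 0 (min 1 (min (8 * sh α β - 1) (7 - 8 * sh α β))) ≤ 1 :=
      max_le (by norm_num) (min_le_left _ _)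
    nlinarith
  have hb0 : ast α β ≤ bst α β := by unfold bst; linarith
  have hl0 : 0 ≤ lam (sh α β) := le_max_left _ _
  have hl1 : lam (sh α β) ≤ 1 := max_le (by norm_num) (min_le_left _ _)
  have hs0 : 0 ≤ sg (dw α β) := by
    have h0 := (dw_mem α β 0).1
    have h1 := (dw_mem α β 1).1
    have h2 := (dw_mem α β 2).1
    unfold sg; linarith
  have hsh : 0 ≤ sh α β := hs0.trans (le_max_left _ _)
  have hinv : 0 < 1 / (1 + ast α β) := by positivity
  have hinv1 : 1 / (1 + ast α β) ≤ 1 := by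
    rw [div_le_one (by linarith)]; linarith
  have hu1 : uu (sh α β) ≤ 1 := max_le (by norm_num) (by linarith)
  refine ⟨lt_max_of_lt_right hinv, max_le hu1 hinv1, ?_, ?_⟩
  · exact div_nonneg hl0 (by linarith)
  · calc Q2 α β ≤ 1 / (1 + bst α β) := by
          unfold Q2
          exact div_le_div_of_nonneg_right hl1 (by linarith)
      _ ≤ 1 / (1 + ast α β) := one_div_le_one_div_of_le (by linarith) (by linarith)
      _ ≤ Q1 α β := le_max_right _ _

theorem qnf_lam (s : ℝ) : 0 ≤ lam s ∧ lam s ≤ 1 := by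
  unfold lam
  exact ⟨le_max_left _ _, max_le zero_le_one (min_le_left _ _)⟩

theorem qnf_lam_zero : lam 0 = 0 := by
  unfold lam
  norm_num

theorem qnf_lam_ge_one {s : ℝ} (h : 1 ≤ s) : lam s = 0 := by
  unfold lam
  refine max_eq_left ?_
  refine (min_le_right _ _).trans ((min_le_right _ _).trans ?_)
  linarith

theorem qnf_eta (s : ℝ) : 0 ≤ eta s ∧ eta s ≤ Real.pi / 2 := by
  have h1 : 0 ≤ max (0 : ℝ) (min 1 (min (8 * s - 1) (7 - 8 * s))) := le_max_left _ _
  have h2 : max (0 : ℝ) (min 1 (min (8 * s - 1) (7 - 8 * s))) ≤ 1 :=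
    max_le zero_le_one (min_le_left _ _)
  have hpi := Real.pi_pos
  unfold eta
  constructor
  · positivity
  · nlinarith

theorem qnf_s_nonneg (α β : ℝ) : 0 ≤ sg (dw α β) := by
  have h0 := (dw_mem α β 0).1
  have h1 := (dw_mem α β 1).1
  have h2 := (dw_mem α β 2).1
  unfold sg
  linarith

theorem qnf_hh {α β : ℝ} (ha : 0 < α) (hb : 0 ≤ β) (hba : β ≤ α) :
    0 ≤ hh α β ∧ hh α β ≤ Real.pi := by
  obtain ⟨h1, h2, -⟩ := LL_mem ha hb hba
  unfold hh
  constructor <;> linarith

theorem qnf_h_lt {α β : ℝ} (ha : 0 < α) (hb : 0 ≤ β) (hba : β ≤ α) (hs : sg (dw α β) < 1) :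
    hh α β < Real.pi / 2 := by
  by_contra hcon
  push Not at hcon
  have h1 : 1 ≤ sg (dw α β) := sg_ge_one hcon (qnf_hh ha hb hba).2
  linarith

theorem qnf_err {α β : ℝ} (ha : 0 < α) (hb : 0 ≤ β) (hba : β ≤ α) (hs : sg (dw α β) < 1) :
    |lam (sg (dw α β)) * err α β| < Real.pi / 2 := by
  rcases (qnf_s_nonneg α β).eq_or_lt with h0 | h0
  · rw [← h0, qnf_lam_zero, zero_mul, abs_zero]
    exact Real.pi_div_two_pos
  · have h1 : 0 < (ze (dw α β) * Complex.exp (-((pp α β : ℝ) : ℂ) * Complex.I)).re :=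
      re_pos (h := hh α β) (p := pp α β) (qnf_h_lt ha hb hba hs).le rfl h0
    have h2 : |err α β| < Real.pi / 2 := by
      unfold err
      rw [Complex.abs_arg_lt_pi_div_two_iff]
      exact Or.inl h1
    obtain ⟨h3, h4⟩ := qnf_lam (sg (dw α β))
    rw [abs_mul, abs_of_nonneg h3]
    calc lam (sg (dw α β)) * |err α β| ≤ 1 * |err α β| :=
          mul_le_mul_of_nonneg_right h4 (abs_nonneg _)
      _ < Real.pi / 2 := by rw [one_mul]; exact h2

theorem Q_no_fixed {α β : ℝ} (ha : 0 < α) (ha1 : α ≤ 1) (hb : 0 ≤ β) (hba : β ≤ α)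
    (h1 : Q1 α β = α) (h2 : Q2 α β = β) : False := by
  have hpi := Real.pi_pos
  have hs0 := qnf_s_nonneg α β
  obtain ⟨hh0, hhpi⟩ := qnf_hh ha hb hba
  have haa : 0 ≤ aa α := by
    unfold aa
    have : 1 ≤ 1 / α := by
      rw [le_div_iff₀ ha]
      linarith
    linarith
  have hαa : α = 1 / (1 + aa α) := by
    unfold aa
    field_simp
    ring
  have hast0 : 0 ≤ ast α β := le_max_left _ _
  have hastge : aa α - hh α β + al (sh α β) + lam (sg (dw α β)) * err α β + eta (sh α β)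
      ≤ ast α β := le_max_right _ _
  obtain ⟨he0, he1⟩ := qnf_eta (sh α β)
  have hssh : sg (dw α β) ≤ sh α β := le_max_left _ _
  have hash : 3 / 8 * (1 - aa α) ≤ sh α β := le_max_right _ _
  rcases le_or_gt (5 / 8) (sh α β) with h58 | h58
  · have hsh : sh α β = sg (dw α β) := by
      unfold sh at h58 ⊢
      rcases max_choice (sg (dw α β)) (3 / 8 * (1 - aa α)) with h | h
      · exact h
      · rw [h] at h58
        linarith
    have hal : al (sh α β) = Real.pi := by
      unfold al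
      rw [min_eq_left (by linarith), max_eq_right (by norm_num), mul_one]
    have huu : uu (sh α β) = 0 := by
      unfold uu
      exact max_eq_left (by linarith)
    rcases le_or_gt 1 (sg (dw α β)) with hs1 | hs1
    · have hQ2 : Q2 α β = 0 := by
        unfold Q2
        rw [hsh, qnf_lam_ge_one hs1, zero_div]
      have hβ : β = 0 := by rw [← h2, hQ2]
      subst hβ
      have hLL : LL α 0 = 2 * Real.pi := by
        unfold LL
        have hp : 0 < α / (1 + 2 * Real.pi * α) := by positivity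
        rw [max_eq_right hp.le]
        field_simp
        ring
      have hh00 : hh α 0 = 0 := by
        unfold hh
        rw [hLL]
        ring
      have hd := dw_full hh00
      rw [hd] at hs1
      simp [sg] at hs1
      linarith
    · have h3 := (abs_lt.1 (qnf_err ha hb hba hs1)).1
      have h4 := qnf_h_lt ha hb hba hs1
      have h5 : aa α < ast α β := by
        rw [hal] at hastge
        linarith
      have h6 : Q1 α β = 1 / (1 + ast α β) := by
        unfold Q1
        rw [huu]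
        exact max_eq_right (by positivity)
      have h7 : 1 / (1 + ast α β) < 1 / (1 + aa α) :=
        one_div_lt_one_div_of_lt (by linarith) (by linarith)
      rw [← h6, ← hαa, h1] at h7
      exact lt_irrefl _ h7
  · have hs1 : sg (dw α β) < 1 := by linarith
    have h3 := abs_lt.1 (qnf_err ha hb hba hs1)
    have h4 := qnf_h_lt ha hb hba hs1
    rcases le_or_gt (3 / 8) (sh α β) with h38 | h38
    · have heta : eta (sh α β) = Real.pi / 2 := by
        unfold eta
        rw [min_eq_left (le_min (by linarith) (by linarith)), max_eq_right zero_le_one, mul_one]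
      have hlam : lam (sh α β) = 1 := by
        unfold lam
        rw [min_eq_left (le_min (by linarith) (by linarith)), max_eq_right zero_le_one]
      have huu : uu (sh α β) = 0 := by
        unfold uu
        exact max_eq_left (by linarith)
      have h6 : Q1 α β = 1 / (1 + ast α β) := by
        unfold Q1
        rw [huu]
        exact max_eq_right (by positivity)
      have h7 : Q2 α β = 1 / (1 + ast α β + Real.pi) := by
        unfold Q2 bst
        rw [hlam, heta]
        congr 1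
        ring
      have e8 : 1 / (1 + ast α β) = α := h6.symm.trans h1
      have e9 : 1 / (1 + ast α β + Real.pi) = β := h7.symm.trans h2
      have hβ : 0 < β := by
        have : 0 < 1 / (1 + ast α β + Real.pi) := by positivity
        linarith
      have h8 : 1 / α = 1 + ast α β := by
        rw [div_eq_iff (by positivity)] at e8
        rw [div_eq_iff ha.ne']
        linarith
      have h9 : 1 / β = 1 + ast α β + Real.pi := by
        rw [div_eq_iff (by positivity)] at e9
        rw [div_eq_iff hβ.ne']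
        linarith
      have h10 : LL α β ≤ Real.pi := by
        have h11 : 1 / max β (α / (1 + 2 * Real.pi * α)) ≤ 1 / β :=
          one_div_le_one_div_of_le hβ (le_max_left _ _)
        unfold LL
        linarith
      unfold hh at h4
      linarith
    · have haa0 : 0 < aa α := by linarith
      have hal : al (sh α β) = -Real.pi := by
        unfold al
        rw [max_eq_left ((min_le_right _ _).trans (by linarith))]
        ring
      have h5 : ast α β < aa α := by
        unfold ast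
        refine max_lt haa0 ?_
        rw [hal]
        linarith [h3.2]
      have h6 : 1 / (1 + ast α β) ≤ Q1 α β := le_max_right _ _
      have h7 : 1 / (1 + aa α) < 1 / (1 + ast α β) :=
        one_div_lt_one_div_of_lt (by linarith) (by linarith)
      rw [← hαa] at h7
      linarith

end J22

section J23
theorem qc_aa : ContinuousOn (fun q : ℝ × ℝ => aa q.1)
    {q | 0 < q.1 ∧ q.1 ≤ 1 ∧ 0 ≤ q.2 ∧ q.2 ≤ q.1} := by
  unfold aa
  exact (ContinuousOn.div continuousOn_const continuous_fst.continuousOn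
    (fun q hq => ne_of_gt hq.1)).sub continuousOn_const

theorem qc_LL : ContinuousOn (fun q : ℝ × ℝ => LL q.1 q.2)
    {q | 0 < q.1 ∧ q.1 ≤ 1 ∧ 0 ≤ q.2 ∧ q.2 ≤ q.1} := by
  unfold LL
  have hpos : ∀ q ∈ ({q | 0 < q.1 ∧ q.1 ≤ 1 ∧ 0 ≤ q.2 ∧ q.2 ≤ q.1} : Set (ℝ × ℝ)),
      0 < 1 + 2 * Real.pi * q.1 := by
    intro q hq
    have h1 : (0 : ℝ) < q.1 := hq.1
    have h2 := Real.pi_pos
    positivity
  have h1 : ContinuousOn (fun q : ℝ × ℝ => q.1 / (1 + 2 * Real.pi * q.1))
      {q | 0 < q.1 ∧ q.1 ≤ 1 ∧ 0 ≤ q.2 ∧ q.2 ≤ q.1} :=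
    ContinuousOn.div continuous_fst.continuousOn
      ((continuous_const.add (continuous_const.mul continuous_fst)).continuousOn)
      (fun q hq => ne_of_gt (hpos q hq))
  refine (ContinuousOn.div continuousOn_const (continuous_snd.continuousOn.sup h1) ?_).sub
    (ContinuousOn.div continuousOn_const continuous_fst.continuousOn (fun q hq => ne_of_gt hq.1))
  intro q hq
  exact ne_of_gt (lt_of_lt_of_le (div_pos hq.1 (hpos q hq)) (le_max_right _ _))

theorem qc_hh : ContinuousOn (fun q : ℝ × ℝ => hh q.1 q.2)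
    {q | 0 < q.1 ∧ q.1 ≤ 1 ∧ 0 ≤ q.2 ∧ q.2 ≤ q.1} := by
  unfold hh
  exact continuousOn_const.sub (qc_LL.div_const 2)

theorem qc_pp : ContinuousOn (fun q : ℝ × ℝ => pp q.1 q.2)
    {q | 0 < q.1 ∧ q.1 ≤ 1 ∧ 0 ≤ q.2 ∧ q.2 ≤ q.1} := by
  unfold pp
  exact (qc_aa.add (qc_LL.div_const 2)).add continuousOn_const

theorem qc_dw : ContinuousOn (fun q : ℝ × ℝ => dw q.1 q.2)
    {q | 0 < q.1 ∧ q.1 ≤ 1 ∧ 0 ≤ q.2 ∧ q.2 ≤ q.1} := by
  rw [continuousOn_pi]
  intro i
  unfold dw
  refine continuousOn_const.sub (G_cont.comp_continuousOn (Real.continuous_cos.comp_continuousOn ?_))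
  exact continuousOn_const.sup (qc_hh.sub (Real.continuous_arccos.comp_continuousOn
    (Real.continuous_cos.comp_continuousOn (qc_pp.sub continuousOn_const))))

theorem qc_sgc : Continuous sg := by
  unfold sg
  fun_prop

theorem qc_zec : Continuous ze := by
  unfold ze
  fun_prop

theorem qc_lam : Continuous lam := by
  unfold lam
  fun_prop

theorem qc_uu : Continuous uu := by
  unfold uu
  fun_prop

theorem qc_al : Continuous al := by
  unfold al
  fun_prop

theorem qc_eta : Continuous eta := by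
  unfold eta
  fun_prop

theorem qc_sg : ContinuousOn (fun q : ℝ × ℝ => sg (dw q.1 q.2))
    {q | 0 < q.1 ∧ q.1 ≤ 1 ∧ 0 ≤ q.2 ∧ q.2 ≤ q.1} :=
  qc_sgc.comp_continuousOn qc_dw

theorem qc_sh : ContinuousOn (fun q : ℝ × ℝ => sh q.1 q.2)
    {q | 0 < q.1 ∧ q.1 ≤ 1 ∧ 0 ≤ q.2 ∧ q.2 ≤ q.1} := by
  unfold sh
  exact qc_sg.sup (continuousOn_const.mul (continuousOn_const.sub qc_aa))

theorem qc_lam_nonneg (σ : ℝ) : 0 ≤ lam σ := le_max_left _ _

theorem qc_lam_zero {σ : ℝ} (h : σ ≤ 0 ∨ 1 ≤ σ) : lam σ = 0 := by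
  unfold lam
  apply max_eq_left
  rcases h with h | h
  · exact (min_le_right _ _).trans ((min_le_left _ _).trans (by linarith))
  · exact (min_le_right _ _).trans ((min_le_right _ _).trans (by linarith))

theorem qc_eta_le (σ : ℝ) : eta σ ≤ Real.pi / 2 := by
  unfold eta
  have h1 : max 0 (min 1 (min (8 * σ - 1) (7 - 8 * σ))) ≤ (1 : ℝ) :=
    max_le zero_le_one (min_le_left _ _)
  have h2 := Real.pi_pos
  nlinarith

theorem qc_err_le (α β : ℝ) : |err α β| ≤ Real.pi := by
  unfold err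
  exact Complex.abs_arg_le_pi _

theorem qc_P : ContinuousOn (fun q : ℝ × ℝ => lam (sg (dw q.1 q.2)) * err q.1 q.2)
    {q | 0 < q.1 ∧ q.1 ≤ 1 ∧ 0 ≤ q.2 ∧ q.2 ≤ q.1} := by
  intro q hq
  have hlam : ContinuousWithinAt (fun q : ℝ × ℝ => lam (sg (dw q.1 q.2)))
      {q | 0 < q.1 ∧ q.1 ≤ 1 ∧ 0 ≤ q.2 ∧ q.2 ≤ q.1} q :=
    (qc_lam.comp_continuousOn qc_sg) q hq
  by_cases hs : 0 < sg (dw q.1 q.2) ∧ sg (dw q.1 q.2) < 1
  · refine hlam.mul ?_
    have hh1 : hh q.1 q.2 ≤ Real.pi := by
      unfold hh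
      have := (LL_mem hq.1 hq.2.2.1 hq.2.2.2).1
      linarith
    have hh2 : hh q.1 q.2 ≤ Real.pi / 2 := by
      by_contra hc
      push Not at hc
      have := sg_ge_one (p := pp q.1 q.2) hc.le hh1
      have h3 : sg (dw q.1 q.2) < 1 := hs.2
      exact absurd this (not_le.mpr h3)
    have hre : 0 < (ze (dw q.1 q.2) * Complex.exp (-((pp q.1 q.2 : ℝ) : ℂ) * Complex.I)).re :=
      re_pos hh2 rfl hs.1
    unfold err
    have hz : ContinuousWithinAt (fun q : ℝ × ℝ => ze (dw q.1 q.2) *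
        Complex.exp (-((pp q.1 q.2 : ℝ) : ℂ) * Complex.I))
        {q | 0 < q.1 ∧ q.1 ≤ 1 ∧ 0 ≤ q.2 ∧ q.2 ≤ q.1} q := by
      have h1 := (qc_zec.comp_continuousOn qc_dw) q hq
      have h2 := (Complex.continuous_exp.comp_continuousOn
        (((Complex.continuous_ofReal.comp_continuousOn qc_pp).neg).mul
          (continuousOn_const (c := Complex.I)))) q hq
      exact h1.mul h2
    have hca : ContinuousAt Complex.arg ((fun q : ℝ × ℝ => ze (dw q.1 q.2) *
        Complex.exp (-((pp q.1 q.2 : ℝ) : ℂ) * Complex.I)) q) :=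
      Complex.continuousAt_arg (Or.inl hre)
    exact ContinuousAt.comp_continuousWithinAt (g := Complex.arg)
      (f := fun q : ℝ × ℝ => ze (dw q.1 q.2) *
        Complex.exp (-((pp q.1 q.2 : ℝ) : ℂ) * Complex.I)) hca hz
  · have h0 : lam (sg (dw q.1 q.2)) = 0 := by
      apply qc_lam_zero
      by_contra hc
      push Not at hc
      exact hs ⟨hc.1, hc.2⟩
    unfold ContinuousWithinAt
    beta_reduce
    rw [h0, zero_mul]
    have h1 : Filter.Tendsto (fun q : ℝ × ℝ => lam (sg (dw q.1 q.2)) * Real.pi)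
        (nhdsWithin q {q | 0 < q.1 ∧ q.1 ≤ 1 ∧ 0 ≤ q.2 ∧ q.2 ≤ q.1}) (nhds 0) := by
      have := hlam.tendsto.mul_const Real.pi
      rw [h0, zero_mul] at this
      exact this
    refine squeeze_zero_norm (fun a => ?_) h1
    rw [norm_mul, Real.norm_eq_abs, Real.norm_eq_abs, abs_of_nonneg (qc_lam_nonneg _)]
    exact mul_le_mul_of_nonneg_left (qc_err_le _ _) (qc_lam_nonneg _)

theorem qc_ast : ContinuousOn (fun q : ℝ × ℝ => ast q.1 q.2)
    {q | 0 < q.1 ∧ q.1 ≤ 1 ∧ 0 ≤ q.2 ∧ q.2 ≤ q.1} := by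
  unfold ast
  exact continuousOn_const.sup ((((qc_aa.sub qc_hh).add (qc_al.comp_continuousOn qc_sh)).add
    qc_P).add (qc_eta.comp_continuousOn qc_sh))

theorem qc_bst : ContinuousOn (fun q : ℝ × ℝ => bst q.1 q.2)
    {q | 0 < q.1 ∧ q.1 ≤ 1 ∧ 0 ≤ q.2 ∧ q.2 ≤ q.1} := by
  unfold bst
  exact (qc_ast.add continuousOn_const).sub
    (continuousOn_const.mul (qc_eta.comp_continuousOn qc_sh))

theorem qc_ast_nonneg (α β : ℝ) : 0 ≤ ast α β := le_max_left _ _

theorem qc_bst_nonneg (α β : ℝ) : 0 ≤ bst α β := by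
  unfold bst
  have h1 := qc_ast_nonneg α β
  have h2 := qc_eta_le (sh α β)
  have h3 := Real.pi_pos
  linarith

theorem Q_cont : ContinuousOn (fun q : ℝ × ℝ => (Q1 q.1 q.2, Q2 q.1 q.2))
    {q | 0 < q.1 ∧ q.1 ≤ 1 ∧ 0 ≤ q.2 ∧ q.2 ≤ q.1} := by
  refine ContinuousOn.prodMk ?_ ?_
  · unfold Q1
    exact (qc_uu.comp_continuousOn qc_sh).sup (ContinuousOn.div continuousOn_const
      (continuousOn_const.add qc_ast) (fun q _ => by
        have := qc_ast_nonneg q.1 q.2
        positivity))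
  · unfold Q2
    exact ContinuousOn.div (qc_lam.comp_continuousOn qc_sh)
      (continuousOn_const.add qc_bst) (fun q _ => by
        have := qc_bst_nonneg q.1 q.2
        positivity)

end J23

section J24
theorem Q_asymp_lam (σ : ℝ) : 0 ≤ lam σ ∧ lam σ ≤ 1 := by
  unfold lam
  exact ⟨le_max_left _ _, max_le zero_le_one (min_le_left _ _)⟩

theorem Q_asymp_al (σ : ℝ) : -Real.pi ≤ al σ := by
  unfold al
  have h1 : (-1 : ℝ) ≤ max (-1) (min 1 (8 * σ - 4)) := le_max_left _ _
  have := Real.pi_pos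
  nlinarith

theorem Q_asymp_eta (σ : ℝ) : 0 ≤ eta σ ∧ eta σ ≤ Real.pi / 2 := by
  unfold eta
  have hpi := Real.pi_pos
  have h1 : (0 : ℝ) ≤ max 0 (min 1 (min (8 * σ - 1) (7 - 8 * σ))) := le_max_left _ _
  have h2 : max 0 (min 1 (min (8 * σ - 1) (7 - 8 * σ))) ≤ 1 :=
    max_le zero_le_one (min_le_left _ _)
  constructor
  · positivity
  · nlinarith

theorem Q_asymp_eta0 {σ : ℝ} (h : σ ≤ 1 / 8 ∨ 7 / 8 ≤ σ) : eta σ = 0 := by
  unfold eta
  have h1 : min 1 (min (8 * σ - 1) (7 - 8 * σ)) ≤ 0 := by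
    rcases h with h | h
    · exact (min_le_right _ _).trans ((min_le_left _ _).trans (by linarith))
    · exact (min_le_right _ _).trans ((min_le_right _ _).trans (by linarith))
  rw [max_eq_left h1, mul_zero]

/-- the circular mean -/
theorem Q_asymp_cc (α β : ℝ) (hz : 0 < ‖ze (dw α β)‖)
    (hm : sg (dw α β) / 2 ≤ ‖ze (dw α β)‖) (i : Fin 3) :
    cc (dw α β) i = Real.cos (pp α β + al (sg (dw α β)) + err α β - ph i) := by
  obtain ⟨Z, hZ⟩ : ∃ Z, Z = ze (dw α β) := ⟨_, rfl⟩
  obtain ⟨p, hp⟩ : ∃ p, p = pp α β := ⟨_, rfl⟩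
  obtain ⟨e, he⟩ : ∃ e, e = err α β := ⟨_, rfl⟩
  obtain ⟨A, hA⟩ : ∃ A, A = al (sg (dw α β)) := ⟨_, rfl⟩
  have herr : e = Complex.arg (Z * Complex.exp (-((p : ℝ) : ℂ) * Complex.I)) := by
    rw [he, hZ, hp]
    rfl
  unfold cc
  rw [max_eq_left hm, ← hZ, ← hp, ← he, ← hA]
  rw [← hZ] at hz
  have hn : ‖Z * Complex.exp (-((p : ℝ) : ℂ) * Complex.I)‖ = ‖Z‖ := by
    have e1 : (-((p : ℝ) : ℂ) * Complex.I) = ((-p : ℝ) : ℂ) * Complex.I := by push_cast; ring
    rw [norm_mul, e1, Complex.norm_exp_ofReal_mul_I, mul_one]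
  have h1 : Z * Complex.exp (-((p : ℝ) : ℂ) * Complex.I) =
      (‖Z‖ : ℂ) * Complex.exp ((e : ℂ) * Complex.I) := by
    have := Complex.norm_mul_exp_arg_mul_I (Z * Complex.exp (-((p : ℝ) : ℂ) * Complex.I))
    rw [← herr, hn] at this
    exact this.symm
  have hz' : (‖Z‖ : ℂ) ≠ 0 := by exact_mod_cast hz.ne'
  have h2 : Z / ((‖Z‖ : ℝ) : ℂ) = Complex.exp (((e + p : ℝ) : ℂ) * Complex.I) := by
    rw [div_eq_iff hz']
    have e2 : (((e + p : ℝ) : ℂ) * Complex.I) = (e : ℂ) * Complex.I + (p : ℂ) * Complex.I := by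
      push_cast
      ring
    have e3 : Complex.exp (-((p : ℝ) : ℂ) * Complex.I) * Complex.exp ((p : ℂ) * Complex.I) = 1 := by
      rw [← Complex.exp_add]
      have : -((p : ℝ) : ℂ) * Complex.I + (p : ℂ) * Complex.I = 0 := by ring
      rw [this, Complex.exp_zero]
    calc
      Z = Z * Complex.exp (-((p : ℝ) : ℂ) * Complex.I) * Complex.exp ((p : ℂ) * Complex.I) := by
        rw [mul_assoc, e3, mul_one]
      _ = _ := by
        rw [h1, e2, Complex.exp_add]
        ring
  rw [h2, ← Complex.exp_add, ← Complex.exp_add]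
  have e4 : ((A : ℝ) : ℂ) * Complex.I + ((e + p : ℝ) : ℂ) * Complex.I +
      -((ph i : ℝ) : ℂ) * Complex.I = ((p + A + e - ph i : ℝ) : ℂ) * Complex.I := by
    push_cast
    ring
  rw [e4, Complex.exp_ofReal_mul_I_re]

theorem Q_asymp {ε : ℝ} (hε : 0 < ε) : ∃ r > 0, ∀ α β : ℝ, 0 < α → α < r → 0 ≤ β → β ≤ α →
    hausdorffDist (Wset (Q1 α β) (Q2 α β)) (Fset (dw α β)) < ε := by
  refine ⟨1 / (20 + 1 / ε), by positivity, fun α β hα hαr hβ hβα => ?_⟩
  have hpi := Real.pi_pos
  have hpi3 : Real.pi < 3.15 := Real.pi_lt_d2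
  have hinv : 20 + 1 / ε < 1 / α := by
    rw [lt_one_div (by positivity) hα]
    exact hαr
  have hε' : 0 < 1 / ε := by positivity
  have haa : aa α = 1 / α - 1 := rfl
  obtain ⟨l1, l2, -⟩ := LL_mem hα hβ hβα
  have hhh : hh α β = Real.pi - LL α β / 2 := rfl
  have h0 : 0 ≤ hh α β := by rw [hhh]; linarith
  have h1 : hh α β ≤ Real.pi := by rw [hhh]; linarith
  obtain ⟨s, hs⟩ : ∃ s, s = sg (dw α β) := ⟨_, rfl⟩
  have hs0 : 0 ≤ s := by
    rw [hs]
    unfold sg
    have a0 := (dw_mem α β 0).1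
    have a1 := (dw_mem α β 1).1
    have a2 := (dw_mem α β 2).1
    linarith
  have hsh : sh α β = s := by
    unfold sh
    rw [← hs]
    refine max_eq_left ?_
    rw [haa]
    linarith
  obtain ⟨m1, m2⟩ := Q_asymp_lam s
  have m3 := Q_asymp_al s
  obtain ⟨m4, m5⟩ := Q_asymp_eta s
  have m6 : |err α β| ≤ Real.pi := Complex.abs_arg_le_pi _
  have m7 : -Real.pi ≤ lam s * err α β := by
    have h2 := (abs_le.1 m6).1
    nlinarith
  obtain ⟨A, hA⟩ : ∃ A, A = aa α - hh α β + al s + lam s * err α β + eta s := ⟨_, rfl⟩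
  have hA0 : 1 / ε < 1 + A := by
    rw [hA, haa]
    linarith
  have hA1 : 0 < A := by
    rw [hA, haa]
    linarith
  have hast : ast α β = A := by
    unfold ast
    rw [hsh, ← hs, ← hA]
    exact max_eq_right hA1.le
  have hfin : 1 / (1 + A) < ε := by
    rw [one_div_lt (by linarith) hε]
    exact hA0
  have hbst : bst α β = A + 2 * Real.pi - 2 * eta s := by
    unfold bst
    rw [hast, hsh]
  have hQ1 : Q1 α β = max (uu s) (1 / (1 + A)) := by
    unfold Q1
    rw [hsh, hast]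
  have hQ2 : Q2 α β = lam s / (1 + bst α β) := by
    unfold Q2
    rw [hsh]
  refine lt_of_le_of_lt ?_ hfin
  by_cases hcase : s ≤ 1 / 8 ∨ 7 / 8 ≤ s
  · -- no triod part
    have he0 : eta s = 0 := Q_asymp_eta0 hcase
    rw [he0, mul_zero, sub_zero] at hbst
    have hF : Fset (dw α β) = Wset (uu s) 0 := by
      unfold Fset
      rw [← hs]
      split_ifs with h2
      · rfl
      · have h3 : 7 / 8 ≤ s := by
          rcases hcase with h4 | h4
          · exact absurd h4 h2
          · exact h4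
        have h4 : Dd (dw α β) = 0 := Dd_eighth (by rw [← hs]; exact Or.inr h3)
        have h5 : uu s = 0 := by
          unfold uu
          exact max_eq_left (by linarith)
        rw [h4, h5, Wset_zero]
    have hu0 : 0 ≤ uu s := le_max_left _ _
    have hu1 : uu s ≤ 1 := by
      unfold uu
      exact max_le zero_le_one (by linarith)
    rw [hF, hQ1]
    refine W_near hu0 hu1 hA1.le ?_ ?_
    · rw [hQ2, hbst]
      exact div_nonneg m1 (by linarith)
    · rw [hQ2, hbst]
      exact div_le_div_of_nonneg_right m2 (by linarith)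
  · have hc1 : 1 / 8 < s := not_le.1 fun h => hcase (Or.inl h)
    have hc2 : s < 7 / 8 := not_le.1 fun h => hcase (Or.inr h)
    have hlam : lam s = 1 := by
      unfold lam
      rw [min_eq_left (le_min (by linarith) (by linarith))]
      exact max_eq_right zero_le_one
    have huu : uu s = 0 := by
      unfold uu
      exact max_eq_left (by linarith)
    have hQ1' : Q1 α β = 1 / (1 + A) := by
      rw [hQ1, huu]
      exact max_eq_right (by positivity)
    have hQ2' : Q2 α β = 1 / (1 + (A + 2 * Real.pi - 2 * eta s)) := by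
      rw [hQ2, hlam, hbst]
    have hhlt : hh α β ≤ Real.pi / 2 := by
      by_contra hcon
      have h2 := sg_ge_one (p := pp α β) (not_le.1 hcon).le h1
      have h3 : sg (dw α β) = sg (fun i => 1 - G (Real.cos (max 0 (hh α β -
        Real.arccos (Real.cos (pp α β - ph i)))))) := rfl
      rw [← h3, ← hs] at h2
      linarith
    have hz0 : ∃ i, dw α β i = 0 := dw_zero hhlt
    have hnz : sg (dw α β) / 2 ≤ ‖ze (dw α β)‖ := norm_ze_ge (fun i => (dw_mem α β i).1) hz0
    have hnz0 : 0 < ‖ze (dw α β)‖ := by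
      rw [← hs] at hnz
      linarith
    have hF : Fset (dw α β) = KTset fun i => 1 - G (Real.cos (max 0 (eta s -
        Real.arccos (Real.cos ((A + 2 * Real.pi - eta s) - ph i))))) := by
      unfold Fset
      rw [← hs, if_neg (not_le.2 hc1)]
      congr 1
      funext i
      unfold Dd
      rw [← hs, Q_asymp_cc α β hnz0 hnz i, ← hs]
      congr 7
      rw [hA, hlam, haa, hhh]
      have : pp α β = aa α + LL α β / 2 + Real.pi := rfl
      rw [this, haa]
      ring
    rw [hF, hQ1', hQ2']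
    exact W_KT hA1.le m4 m5 rfl

end J24

section J25
theorem F_cont_sg (δ δ₀ : Fin 3 → ℝ) : |sg δ - sg δ₀| ≤ 3 * dist δ δ₀ := by
  have h : ∀ i, |δ i - δ₀ i| ≤ dist δ δ₀ := fun i => by
    rw [← Real.dist_eq]
    exact dist_le_pi_dist δ δ₀ i
  have h0 := abs_le.1 (h 0)
  have h1 := abs_le.1 (h 1)
  have h2 := abs_le.1 (h 2)
  unfold sg
  rw [abs_le]
  constructor <;> linarith

theorem F_cont_uu (σ σ' : ℝ) : |uu σ - uu σ'| ≤ 8 * |σ - σ'| := by
  unfold uu
  have h := abs_max_sub_max_le_abs (1 - 8 * σ) (1 - 8 * σ') 0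
  rw [max_comm (1 - 8 * σ), max_comm (1 - 8 * σ')] at h
  refine h.trans (le_of_eq ?_)
  have e : 1 - 8 * σ - (1 - 8 * σ') = -(8 * (σ - σ')) := by ring
  rw [e, abs_neg, abs_mul]
  norm_num

theorem F_cont_uu_mem (δ : Fin 3 → ℝ) (h0 : ∀ i, 0 ≤ δ i ∧ δ i ≤ 1) :
    0 ≤ uu (sg δ) ∧ uu (sg δ) ≤ 1 := by
  have hs : 0 ≤ sg δ := by
    unfold sg
    have a0 := (h0 0).1
    have a1 := (h0 1).1
    have a2 := (h0 2).1
    linarith
  unfold uu
  refine ⟨le_max_left _ _, max_le (by norm_num) (by linarith)⟩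

theorem F_cont_Dd {δ₀ : Fin 3 → ℝ} (h0 : ∀ i, 0 ≤ δ₀ i ∧ δ₀ i ≤ 1) (hs : 1 / 8 ≤ sg δ₀) {ε : ℝ}
    (hε : 0 < ε) : ∃ r > 0, ∀ δ : Fin 3 → ℝ, (∀ i, 0 ≤ δ i ∧ δ i ≤ 1) → 0 < sg δ →
      dist δ δ₀ < r → hausdorffDist (KTset (Dd δ)) (KTset (Dd δ₀)) < ε := by
  have hc := Dd_cont δ₀ ⟨fun i => (h0 i).1, by linarith⟩
  rw [ContinuousWithinAt, Metric.tendsto_nhdsWithin_nhds] at hc
  obtain ⟨r, hr, h⟩ := hc ε hε
  refine ⟨r, hr, fun δ hδ hpos hd => ?_⟩
  have h1 := h (x := δ) ⟨fun i => (hδ i).1, hpos⟩ hd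
  exact (KT_lip (fun i => (Dd_mem δ i).1) (fun i => (Dd_mem δ i).2) (fun i => (Dd_mem δ₀ i).1)
    (fun i => (Dd_mem δ₀ i).2)).trans_lt h1

theorem F_cont {δ₀ : Fin 3 → ℝ} (h0 : ∀ i, 0 ≤ δ₀ i ∧ δ₀ i ≤ 1) {ε : ℝ} (hε : 0 < ε) :
    ∃ r > 0, ∀ δ : Fin 3 → ℝ, (∀ i, 0 ≤ δ i ∧ δ i ≤ 1) → dist δ δ₀ < r →
      hausdorffDist (Fset δ) (Fset δ₀) < ε := by
  have hs0 : 0 ≤ sg δ₀ := by
    unfold sg
    have a0 := (h0 0).1
    have a1 := (h0 1).1
    have a2 := (h0 2).1
    linarith
  rcases lt_trichotomy (sg δ₀) (1 / 8) with hlt | heq | hgt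
  · have hu : uu (sg δ₀) = 1 - 8 * sg δ₀ := by
      unfold uu
      exact max_eq_right (by linarith)
    obtain ⟨r1, hr1, hW⟩ := W_cont (α₀ := uu (sg δ₀)) (β₀ := 0) (by rw [hu]; linarith)
      (F_cont_uu_mem δ₀ h0).2 le_rfl (by rw [hu]; linarith) hε
    refine ⟨min ((1 / 8 - sg δ₀) / 3) (r1 / 24), lt_min (by linarith) (by positivity),
      fun δ hδ hd => ?_⟩
    have hd1 : dist δ δ₀ < (1 / 8 - sg δ₀) / 3 := hd.trans_le (min_le_left _ _)
    have hd2 : dist δ δ₀ < r1 / 24 := hd.trans_le (min_le_right _ _)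
    have hsg := F_cont_sg δ δ₀
    have hsg' := abs_le.1 hsg
    have h1 : sg δ ≤ 1 / 8 := by linarith
    have hF : Fset δ = Wset (uu (sg δ)) 0 := if_pos h1
    have hF0 : Fset δ₀ = Wset (uu (sg δ₀)) 0 := if_pos hlt.le
    rw [hF, hF0]
    have hm := F_cont_uu_mem δ hδ
    apply hW _ _ le_rfl hm.1 hm.2
    · refine (F_cont_uu _ _).trans_lt ?_
      linarith
    · simpa using hr1
  · obtain ⟨r, hr, hD⟩ := F_cont_Dd h0 heq.ge hε
    refine ⟨min r (ε / 24), lt_min hr (by positivity), fun δ hδ hd => ?_⟩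
    have hd1 : dist δ δ₀ < r := hd.trans_le (min_le_left _ _)
    have hd2 : dist δ δ₀ < ε / 24 := hd.trans_le (min_le_right _ _)
    have hu0 : uu (sg δ₀) = 0 := by
      unfold uu
      rw [heq]
      norm_num
    have hF0 : Fset δ₀ = Wset 0 0 := by
      have : Fset δ₀ = Wset (uu (sg δ₀)) 0 := if_pos heq.le
      rw [this, hu0]
    by_cases h1 : sg δ ≤ 1 / 8
    · have hF : Fset δ = Wset (uu (sg δ)) 0 := if_pos h1
      rw [hF, hF0]
      have hm := F_cont_uu_mem δ hδ
      refine (W_zero_near hm.1 hm.2).trans_lt ?_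
      have h2 := F_cont_uu (sg δ) (sg δ₀)
      rw [hu0, sub_zero, abs_of_nonneg hm.1] at h2
      have h3 := F_cont_sg δ δ₀
      linarith
    · have hF : Fset δ = KTset (Dd δ) := if_neg h1
      rw [hF, hF0, Wset_zero, ← Dd_eighth (δ := δ₀) (Or.inl heq.le)]
      push Not at h1
      exact hD δ hδ (by linarith) hd1
  · obtain ⟨r, hr, hD⟩ := F_cont_Dd h0 hgt.le hε
    refine ⟨min r ((sg δ₀ - 1 / 8) / 3), lt_min hr (by linarith), fun δ hδ hd => ?_⟩
    have hd1 : dist δ δ₀ < r := hd.trans_le (min_le_left _ _)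
    have hd2 : dist δ δ₀ < (sg δ₀ - 1 / 8) / 3 := hd.trans_le (min_le_right _ _)
    have hsg' := abs_le.1 (F_cont_sg δ δ₀)
    have h1 : 1 / 8 < sg δ := by linarith
    have hF : Fset δ = KTset (Dd δ) := if_neg (not_le.2 h1)
    have hF0 : Fset δ₀ = KTset (Dd δ₀) := if_neg (not_le.2 hgt)
    rw [hF, hF0]
    exact hD δ hδ (by linarith) hd1

end J25

/-! ### assembly -/

theorem Fset_ok {δ : Fin 3 → ℝ} (h : ∀ i, 0 ≤ δ i) :
    IsCompact (Fset δ) ∧ IsConnected (Fset δ) ∧ Fset δ ⊆ Xset := by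
  have hs : 0 ≤ sg δ := by have := h 0; have := h 1; have := h 2; unfold sg; linarith
  unfold Fset
  split_ifs with hc
  · have hu0 : 0 ≤ uu (sg δ) := le_max_left _ _
    have hu1 : uu (sg δ) ≤ 1 := max_le (by norm_num) (by linarith)
    obtain ⟨h1, h2⟩ := Wset_ok (α := uu (sg δ)) (β := 0) le_rfl hu0 hu1
    exact ⟨h1, h2, fun x hx => hx.1⟩
  · exact KT_ok (fun i => (Dd_mem δ i).1) (fun i => (Dd_mem δ i).2)

theorem fset_ok {K : Set E} (hc : IsCompact K) (hn : IsConnected K) (hX : K ⊆ Xset) :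
    IsCompact (fset K) ∧ IsConnected (fset K) ∧ fset K ⊆ Xset := by
  unfold fset
  split_ifs with hm
  · exact Fset_ok (fun i => (dl_mem hc hn.nonempty hX i).1)
  · push Not at hm
    obtain ⟨-, h1, h2, h3⟩ := classify hc hn hX hm
    obtain ⟨q1, q2, q3, q4⟩ := Q_mem hm h1 h2 h3
    obtain ⟨h5, h6⟩ := Wset_ok q3 q4 q2
    exact ⟨h5, h6, fun x hx => hx.1⟩

/-- the map on the hyperspace -/
def fmap (K : CS) : CS :=
  ⟨⟨⟨fset (K.1 : Set E), (fset_ok K.1.isCompact K.2.1 K.2.2).1⟩,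
    (fset_ok K.1.isCompact K.2.1 K.2.2).2.1.nonempty⟩,
    (fset_ok K.1.isCompact K.2.1 K.2.2).2.1, (fset_ok K.1.isCompact K.2.1 K.2.2).2.2⟩

theorem fmap_coe (K : CS) : ((fmap K).1 : Set E) = fset (K.1 : Set E) := rfl

theorem sg_zero : sg (0 : Fin 3 → ℝ) = 0 := by simp [sg]

theorem mz_KT_zero {K : Set E} (h : ∀ x ∈ K, x.2 = 0) (hn : K.Nonempty) : mz K = 0 := by
  unfold mz
  have : Prod.snd '' K = {0} := by
    ext y
    constructor
    · rintro ⟨x, hx, rfl⟩; exact h x hx
    · rintro rfl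
      obtain ⟨x, hx⟩ := hn
      exact ⟨x, hx, h x hx⟩
  rw [this, csSup_singleton]

theorem fmap_ne (K : CS) : fmap K ≠ K := by
  intro hK
  have hK' : fset (K.1 : Set E) = (K.1 : Set E) := by
    have := congrArg (fun L : CS => (L.1 : Set E)) hK
    simpa [fmap_coe] using this
  have hc := K.1.isCompact
  have hn := K.2.1
  have hX := K.2.2
  obtain ⟨hm0, hm1⟩ := mz_nonneg hc hn.nonempty hX
  by_cases hm : mz (K.1 : Set E) ≤ 0
  · have hmz : mz (K.1 : Set E) = 0 := le_antisymm hm hm0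
    have hf : Fset (dl (K.1 : Set E)) = (K.1 : Set E) := by
      rw [← hK']; conv_rhs => rw [fset, if_pos hm]
      rw [hK']
    by_cases hs : sg (dl (K.1 : Set E)) ≤ 1 / 8
    · rw [Fset, if_pos hs] at hf
      have hs0 : 0 ≤ sg (dl (K.1 : Set E)) := by
        have h0 := (dl_mem hc hn.nonempty hX 0).1
        have h1 := (dl_mem hc hn.nonempty hX 1).1
        have h2 := (dl_mem hc hn.nonempty hX 2).1
        unfold sg; linarith
      have hu1 : uu (sg (dl (K.1 : Set E))) ≤ 1 := max_le (by norm_num) (by linarith)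
      have hu0 : 0 ≤ uu (sg (dl (K.1 : Set E))) := le_max_left _ _
      rcases hu0.lt_or_eq with hu | hu
      · have := (mz_W le_rfl hu0 hu1 hu).1
        rw [hf, hmz] at this
        rw [← this] at hu
        exact lt_irrefl _ hu
      · have h3 : uu (sg (dl (K.1 : Set E))) = 0 := hu.symm
        rw [h3, Wset_zero] at hf
        have h4 : dl (K.1 : Set E) = 0 := by
          rw [← hf]; exact dl_KT (fun i => le_rfl) (fun i => by simp)
        have h5 : sg (dl (K.1 : Set E)) = 0 := by rw [h4, sg_zero]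
        rw [h5] at h3
        unfold uu at h3
        norm_num at h3
    · rw [Fset, if_neg hs] at hf
      push Not at hs
      have h4 : dl (K.1 : Set E) = Dd (dl (K.1 : Set E)) := by
        conv_lhs => rw [← hf]
        exact dl_KT (fun i => (Dd_mem _ i).1) (fun i => (Dd_mem _ i).2)
      exact Dd_no_fixed (fun i => (dl_mem hc hn.nonempty hX i).1) hs h4.symm
  · have hm' : 0 < mz (K.1 : Set E) := not_le.1 hm
    obtain ⟨hW, h1, h2, h3⟩ := classify hc hn hX hm'
    obtain ⟨q1, q2, q3, q4⟩ := Q_mem hm' h1 h2 h3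
    rw [fset, if_neg hm] at hK'
    obtain ⟨e1, e2⟩ := mz_W q3 q4 q2 q1
    rw [hK'] at e1 e2
    exact Q_no_fixed hm' h1 h2 h3 e1.symm e2.symm

theorem dist_CS (K L : CS) : dist K L = hausdorffDist (K.1 : Set E) (L.1 : Set E) := by
  rw [Subtype.dist_eq]; exact NonemptyCompacts.dist_eq

theorem coord_lip (i : Fin 3) : LipschitzWith 1 (fun x : E => x.1 i) :=
  LipschitzWith.of_dist_le_mul fun x y => by
    simp only [NNReal.coe_one, one_mul]
    calc dist (x.1 i) (y.1 i) ≤ dist x.1 y.1 := dist_le_pi_dist _ _ _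
      _ ≤ dist x y := by rw [Prod.dist_eq]; exact le_max_left _ _

theorem snd_lip : LipschitzWith 1 (fun x : E => x.2) :=
  LipschitzWith.of_dist_le_mul fun x y => by
    simp only [NNReal.coe_one, one_mul]
    rw [Prod.dist_eq]; exact le_max_right _ _

theorem mz_cont : Continuous fun K : CS => mz (K.1 : Set E) :=
  (sSup_cont snd_lip).comp continuous_subtype_val

theorem nz_cont : Continuous fun K : CS => nz (K.1 : Set E) :=
  (sInf_cont snd_lip).comp continuous_subtype_val

theorem dl_cont : Continuous fun K : CS => dl (K.1 : Set E) := by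
  refine continuous_pi fun i => ?_
  have := (sSup_cont (coord_lip i)).comp (continuous_subtype_val (p := fun K : NonemptyCompacts E =>
    IsConnected (K : Set E) ∧ (K : Set E) ⊆ Xset))
  exact continuous_const.sub this

theorem hd_ne_top {A B : Set E} (hA : IsCompact A) (hB : IsCompact B) (nA : A.Nonempty)
    (nB : B.Nonempty) : hausdorffEDist A B ≠ ⊤ :=
  hausdorffEDist_ne_top_of_nonempty_of_bounded nA nB hA.isBounded hB.isBounded

theorem fmap_cont : Continuous fmap := by
  rw [continuous_iff_continuousAt]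
  intro K₀
  have hc := K₀.1.isCompact
  have hn := K₀.2.1
  have hX := K₀.2.2
  obtain ⟨hm0, hm1⟩ := mz_nonneg hc hn.nonempty hX
  rw [Metric.continuousAt_iff']
  intro ε hε
  by_cases hm : mz (K₀.1 : Set E) ≤ 0
  · have hmz : mz (K₀.1 : Set E) = 0 := le_antisymm hm hm0
    -- continuity of F
    obtain ⟨r, hr, hF⟩ := F_cont (δ₀ := dl (K₀.1 : Set E)) (fun i => dl_mem hc hn.nonempty hX i)
      (half_pos hε)
    obtain ⟨r', hr', hQ⟩ := Q_asymp (half_pos hε)
    have e1 : ∀ᶠ K : CS in nhds K₀, dist (dl (K.1 : Set E)) (dl (K₀.1 : Set E)) < r :=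
      (Metric.tendsto_nhds.1 (dl_cont.tendsto K₀)) r hr
    have e2 : ∀ᶠ K : CS in nhds K₀, mz (K.1 : Set E) < r' := by
      have := mz_cont.tendsto K₀
      refine this.eventually_lt_const ?_
      rw [hmz]; exact hr'
    filter_upwards [e1, e2] with K h1 h2
    have hcK := K.1.isCompact
    have hnK := K.2.1
    have hXK := K.2.2
    have hFK := hF (dl (K.1 : Set E)) (fun i => dl_mem hcK hnK.nonempty hXK i) h1
    rw [dist_CS, fmap_coe, fmap_coe]
    rw [show fset (K₀.1 : Set E) = Fset (dl (K₀.1 : Set E)) from by rw [fset, if_pos hm]]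
    by_cases hmK : mz (K.1 : Set E) ≤ 0
    · rw [show fset (K.1 : Set E) = Fset (dl (K.1 : Set E)) from by rw [fset, if_pos hmK]]
      linarith
    · rw [fset, if_neg hmK]
      have hmK' := not_le.1 hmK
      obtain ⟨hW, k1, k2, k3⟩ := classify hcK hnK hXK hmK'
      have hdl : dl (K.1 : Set E) = dw (mz (K.1 : Set E)) (nz (K.1 : Set E)) := by
        conv_lhs => rw [hW]
        exact dl_W hmK' k1 k2 k3
      have hQK := hQ _ _ hmK' h2 k2 k3
      rw [hdl] at hFK
      obtain ⟨q1, q2, q3, q4⟩ := Q_mem hmK' k1 k2 k3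
      obtain ⟨w1, w2⟩ := Wset_ok q3 q4 q2
      have hd0 : ∀ i, 0 ≤ dw (mz (K.1 : Set E)) (nz (K.1 : Set E)) i := fun i => (dw_mem _ _ i).1
      obtain ⟨f1, f2, -⟩ := Fset_ok hd0
      have htri := hausdorffDist_triangle (s := Wset (Q1 (mz (K.1 : Set E)) (nz (K.1 : Set E)))
        (Q2 (mz (K.1 : Set E)) (nz (K.1 : Set E)))) (t := Fset (dw (mz (K.1 : Set E))
        (nz (K.1 : Set E)))) (u := Fset (dl (K₀.1 : Set E)))
        (hd_ne_top w1 f1 w2.nonempty f2.nonempty)
      linarith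
  · have hm' : 0 < mz (K₀.1 : Set E) := not_le.1 hm
    obtain ⟨hW, k1, k2, k3⟩ := classify hc hn hX hm'
    obtain ⟨q1, q2, q3, q4⟩ := Q_mem hm' k1 k2 k3
    obtain ⟨r, hr, hWc⟩ := W_cont q1 q2 q3 q4 hε
    have hQc := Q_cont (mz (K₀.1 : Set E), nz (K₀.1 : Set E)) ⟨hm', k1, k2, k3⟩
    have epos : ∀ᶠ K : CS in nhds K₀, 0 < mz (K.1 : Set E) :=
      (mz_cont.tendsto K₀).eventually_const_lt hm'
    have htend : Filter.Tendsto (fun K : CS => (mz (K.1 : Set E), nz (K.1 : Set E))) (nhds K₀)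
        (nhdsWithin (mz (K₀.1 : Set E), nz (K₀.1 : Set E))
          {q : ℝ × ℝ | 0 < q.1 ∧ q.1 ≤ 1 ∧ 0 ≤ q.2 ∧ q.2 ≤ q.1}) := by
      rw [tendsto_nhdsWithin_iff]
      refine ⟨(mz_cont.tendsto K₀).prodMk_nhds (nz_cont.tendsto K₀), ?_⟩
      filter_upwards [epos] with K hK
      obtain ⟨-, j1, j2, j3⟩ := classify K.1.isCompact K.2.1 K.2.2 hK
      exact ⟨hK, j1, j2, j3⟩
    have hcomp := hQc.tendsto.comp htend
    have e1 : ∀ᶠ K : CS in nhds K₀, dist
        (Q1 (mz (K.1 : Set E)) (nz (K.1 : Set E)), Q2 (mz (K.1 : Set E)) (nz (K.1 : Set E)))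
        (Q1 (mz (K₀.1 : Set E)) (nz (K₀.1 : Set E)), Q2 (mz (K₀.1 : Set E)) (nz (K₀.1 : Set E))) < r :=
      (Metric.tendsto_nhds.1 hcomp) r hr
    filter_upwards [epos, e1] with K hK hd
    rw [dist_CS, fmap_coe, fmap_coe, fset, if_neg (not_le.2 hK), fset, if_neg hm]
    obtain ⟨-, j1, j2, j3⟩ := classify K.1.isCompact K.2.1 K.2.2 hK
    obtain ⟨p1, p2, p3, p4⟩ := Q_mem hK j1 j2 j3
    rw [Prod.dist_eq, max_lt_iff] at hd
    exact hWc _ _ p3 p4 p2 (by simpa [Real.dist_eq] using hd.1) (by simpa [Real.dist_eq] using hd.2)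


section T1


theorem transfer {A : Type} [MetricSpace A] {S : Set A}
    (f : {K : NonemptyCompacts A // IsConnected (K : Set A) ∧ (K : Set A) ⊆ S} →
      {K : NonemptyCompacts A // IsConnected (K : Set A) ∧ (K : Set A) ⊆ S})
    (hf : Continuous f) (hn : ∀ K, f K ≠ K) :
    ∃ g : Hyper (↥S) → Hyper (↥S), Continuous g ∧ ∀ K, g K ≠ K := by
  have himg : ∀ K : Set A, K ⊆ S → (Subtype.val : S → A) '' (Subtype.val ⁻¹' K) = K := by
    intro K hK
    rw [Subtype.image_preimage_coe, inter_eq_right]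
    exact hK
  let push : Hyper (↥S) → {K : NonemptyCompacts A // IsConnected (K : Set A) ∧ (K : Set A) ⊆ S} :=
    fun K => ⟨⟨⟨(Subtype.val : S → A) '' (K.1 : Set S),
      K.1.isCompact.image continuous_subtype_val⟩, K.1.nonempty.image _⟩,
      K.2.image _ continuous_subtype_val.continuousOn, by
        rintro _ ⟨x, _, rfl⟩
        exact x.2⟩
  let pull : {K : NonemptyCompacts A // IsConnected (K : Set A) ∧ (K : Set A) ⊆ S} → Hyper (↥S) :=
    fun K => ⟨⟨⟨(Subtype.val : S → A) ⁻¹' (K.1 : Set A), by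
        rw [Topology.IsEmbedding.subtypeVal.isCompact_iff, himg _ K.2.2]
        exact K.1.isCompact⟩, by
        obtain ⟨x, hx⟩ := K.1.nonempty
        exact ⟨⟨x, K.2.2 hx⟩, hx⟩⟩, by
        constructor
        · obtain ⟨x, hx⟩ := K.1.nonempty
          exact ⟨⟨x, K.2.2 hx⟩, hx⟩
        · show IsPreconnected ((Subtype.val : S → A) ⁻¹' (K.1 : Set A))
          rw [← Topology.IsInducing.subtypeVal.isPreconnected_image, himg _ K.2.2]
          exact K.2.1.isPreconnected⟩
  have hpp : ∀ K, push (pull K) = K := by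
    intro K
    apply Subtype.ext
    apply SetLike.coe_injective
    exact himg _ K.2.2
  have hdist : ∀ K L, dist (push K) (push L) = dist K L := by
    intro K L
    show hausdorffDist ((Subtype.val : S → A) '' (K.1 : Set S))
      ((Subtype.val : S → A) '' (L.1 : Set S)) = hausdorffDist (K.1 : Set S) (L.1 : Set S)
    exact hausdorffDist_image isometry_subtype_coe
  have hpushc : Continuous push := (Isometry.of_dist_eq hdist).continuous
  have hpullc : Continuous pull := by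
    refine (Isometry.of_dist_eq fun K L => ?_).continuous
    rw [← hdist, hpp, hpp]
  refine ⟨fun K => pull (f (push K)), hpullc.comp (hf.comp hpushc), fun K hK => ?_⟩
  apply hn (push K)
  have := congrArg push hK
  simp only [hpp] at this
  exact this


end T1

section T2


/-- leg coordinates -/
def treeLike_L (z0 : ℝ) (x : E) : Fin 3 → ℝ :=
  if x.2 ≤ z0 then ![x.1 0 / 2, x.1 1, x.1 2] else ![1 / 2 + (x.2 - z0) / (2 * (1 - z0)), 0, 0]

def treeLike_pt (l : Fin 3 → ℝ) : Fin 4 → ℝ := ![1 - l 0 - l 1 - l 2, l 0, l 1, l 2]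

theorem treeLike_pt_inj {l l' : Fin 3 → ℝ} (h : treeLike_pt l = treeLike_pt l') : l = l' := by
  funext i
  have := congrFun h i.succ
  fin_cases i <;> simpa [treeLike_pt] using this

theorem treeLike_pt_mem {l : Fin 3 → ℝ} (hl : l ∈ tset) :
    treeLike_pt l ∈ polyhedron (SimpleGraph.starGraph (0 : Fin 4)) := by
  obtain ⟨h01, j, hj⟩ := hl
  refine ⟨0, j.succ, Or.inr (by simp [SimpleGraph.starGraph_adj, (Fin.succ_ne_zero j).symm]),
    1 - l j, l j, by linarith [(h01 j).2], (h01 j).1, by ring, ?_⟩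
  fin_cases j
  · have e1 := hj 1 (by decide)
    have e2 := hj 2 (by decide)
    funext i
    fin_cases i <;> simp [treeLike_pt, e1, e2, Pi.single_apply]
  · have e1 := hj 0 (by decide)
    have e2 := hj 2 (by decide)
    funext i
    fin_cases i <;> simp [treeLike_pt, e1, e2, Pi.single_apply]
  · have e1 := hj 0 (by decide)
    have e2 := hj 1 (by decide)
    funext i
    fin_cases i <;> simp [treeLike_pt, e1, e2, Pi.single_apply]

theorem treeLike_pt_surj {y : Fin 4 → ℝ}
    (hy : y ∈ polyhedron (SimpleGraph.starGraph (0 : Fin 4))) :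
    ∃ l ∈ tset, treeLike_pt l = y := by
  obtain ⟨u, v, huv, a, b, ha, hb, hab, rfl⟩ := hy
  have key : ∀ (w : Fin 4) (c : ℝ), 0 ≤ c → c ≤ 1 →
      ∃ l ∈ tset, treeLike_pt l = (1 - c) • Pi.single (0 : Fin 4) (1 : ℝ) + c • Pi.single w (1 : ℝ) := by
    intro w c hc hc1
    refine ⟨fun i => c * (if i.succ = w then 1 else 0), ⟨fun i => ?_, ?_⟩, ?_⟩
    · dsimp only
      split_ifs <;> constructor <;> linarith
    · rcases Fin.eq_zero_or_eq_succ w with h | ⟨j, h⟩
      · refine ⟨0, fun i _ => ?_⟩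
        dsimp only
        have hne : ¬ (i.succ = w) := by rw [h]; exact Fin.succ_ne_zero i
        rw [if_neg hne, mul_zero]
      · refine ⟨j, fun i hi => ?_⟩
        dsimp only
        have hne : ¬ (i.succ = w) := by
          rw [h]; intro h'; exact hi (Fin.succ_injective _ h')
        rw [if_neg hne, mul_zero]
    · funext i
      fin_cases w <;> fin_cases i <;> simp [treeLike_pt, Pi.single_apply, Fin.ext_iff] <;> ring
  have hsw : a • Pi.single u (1 : ℝ) + b • Pi.single v (1 : ℝ) =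
      b • Pi.single v (1 : ℝ) + a • Pi.single u (1 : ℝ) := add_comm _ _
  rcases huv with rfl | hadj
  · obtain ⟨l, hl, hl2⟩ := key u 1 zero_le_one le_rfl
    refine ⟨l, hl, ?_⟩
    rw [hl2, ← add_smul, hab]; simp
  · rw [SimpleGraph.starGraph_adj] at hadj
    rcases hadj.2 with h | h
    · obtain ⟨l, hl, hl2⟩ := key v b hb (by linarith)
      refine ⟨l, hl, ?_⟩
      rw [hl2, h]
      have : 1 - b = a := by linarith
      rw [this]
    · obtain ⟨l, hl, hl2⟩ := key u a ha (by linarith)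
      refine ⟨l, hl, ?_⟩
      rw [hsw, hl2, h]
      have : 1 - a = b := by linarith
      rw [this]

theorem treeLike_L_mem {z0 : ℝ} (h0 : 0 < z0) (h1 : z0 < 1) {x : E} (hx : x ∈ Xset) :
    treeLike_L z0 x ∈ tset := by
  have ht : x.1 ∈ tset := by
    rcases hx with h | h
    · exact h.2
    · rw [h.2.2]; exact tp_mem _
  unfold treeLike_L
  split_ifs with hz
  · obtain ⟨h01, j, hj⟩ := ht
    refine ⟨fun i => ?_, j, fun i hi => ?_⟩
    · have a0 := h01 0
      have a1 := h01 1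
      have a2 := h01 2
      fin_cases i
      · simp only [Fin.zero_eta, Matrix.cons_val_zero]
        constructor <;> linarith
      · simpa using a1
      · simpa using a2
    · have := hj i hi
      fin_cases i
      · simpa using this
      · simpa using this
      · simpa using this
  · push Not at hz
    have hz1 : x.2 ≤ 1 := by
      rcases hx with h | h
      · rw [h.1]; exact zero_le_one
      · exact h.2.1
    have hd : 0 < 2 * (1 - z0) := by linarith
    have hq : (x.2 - z0) / (2 * (1 - z0)) ≤ 1 / 2 := by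
      rw [div_le_iff₀ hd]; linarith
    have hq0 : 0 ≤ (x.2 - z0) / (2 * (1 - z0)) := div_nonneg (by linarith) hd.le
    refine ⟨fun i => ?_, 0, fun i hi => ?_⟩
    · fin_cases i
      · simp only [Fin.zero_eta, Matrix.cons_val_zero]
        constructor <;> linarith
      · simp
      · simp
    · fin_cases i
      · exact absurd rfl hi
      · simp
      · simp

theorem treeLike_tp_nat (n : ℕ) : tp (2 * Real.pi * n) = tp 0 := by
  induction n with
  | zero => simp
  | succ n ih =>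
    rw [← ih, ← tp_periodic (2 * Real.pi * n)]
    congr 1; push_cast; ring

theorem treeLike_tp_zero : tp 0 = ![1, 0, 0] := by
  have h3 : Real.cos (2 * Real.pi / 3) = -(1 / 2) := by
    have : 2 * Real.pi / 3 = Real.pi - Real.pi / 3 := by ring
    rw [this, Real.cos_pi_sub, Real.cos_pi_div_three]
  have h4 : Real.cos (2 * Real.pi / 3 * 2) = -(1 / 2) := by
    have : 2 * Real.pi / 3 * 2 = Real.pi / 3 + Real.pi := by ring
    rw [this, Real.cos_add_pi, Real.cos_pi_div_three]
  funext i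
  fin_cases i
  · simp [tp, ph, G_one]
  · simp only [tp, ph, Fin.mk_one, Fin.val_one, Nat.cast_one, mul_one, zero_sub, Real.cos_neg, h3]
    rw [G_eq_zero (by norm_num)]; simp
  · show G (Real.cos (0 - 2 * Real.pi / 3 * ((2 : ℕ) : ℝ))) = 0
    rw [zero_sub, Real.cos_neg, Nat.cast_ofNat, h4]
    exact G_eq_zero (by norm_num)

theorem treeLike_L_cont {z0 : ℝ} (h0 : 0 < z0) (h1 : z0 < 1) (n : ℕ)
    (hz : 1 / z0 - 1 = 2 * Real.pi * n) : Continuous fun x : ↥Xset => treeLike_L z0 (x : E) := by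
  unfold treeLike_L
  apply Continuous.if_le
  · apply continuous_pi
    intro i
    fin_cases i
    · simp only [Fin.zero_eta, Matrix.cons_val_zero]; fun_prop
    · simp; fun_prop
    · simp; fun_prop
  · apply continuous_pi
    intro i
    fin_cases i
    · simp only [Fin.zero_eta, Matrix.cons_val_zero]; fun_prop
    · simp; fun_prop
    · simp; fun_prop
  · fun_prop
  · fun_prop
  · intro x hx
    have h2 : (x : E).1 = ![1, 0, 0] := by
      rcases x.2 with h | h
      · rw [h.1] at hx; exact absurd hx h0.ne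
      · rw [h.2.2, hx, hz, treeLike_tp_nat, treeLike_tp_zero]
    rw [h2, hx]
    funext i
    fin_cases i <;> simp

theorem treeLike_L_surj {z0 : ℝ} (h0 : 0 < z0) (h1 : z0 < 1) {l : Fin 3 → ℝ} (hl : l ∈ tset) :
    ∃ x ∈ Xset, treeLike_L z0 x = l := by
  obtain ⟨h01, j, hj⟩ := hl
  rcases le_or_gt (l 0) (1 / 2) with h | h
  · refine ⟨(![2 * l 0, l 1, l 2], 0), Or.inl ⟨rfl, fun i => ?_, j, fun i hi => ?_⟩, ?_⟩
    · have a0 := h01 0
      have a1 := h01 1
      have a2 := h01 2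
      fin_cases i
      · simp only [Fin.zero_eta, Matrix.cons_val_zero]
        constructor <;> linarith
      · simpa using a1
      · simpa using a2
    · have := hj i hi
      fin_cases i
      · simpa using this
      · simpa using this
      · simpa using this
    · rw [treeLike_L, if_pos h0.le]
      funext i
      fin_cases i <;> simp
  · have hj0 : j = 0 := by
      by_contra hne
      have := hj 0 (fun h => hne h.symm)
      linarith
    subst hj0
    have e1 := hj 1 (by decide)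
    have e2 := hj 2 (by decide)
    have hl1 := (h01 0).2
    have hz : z0 < z0 + (2 * l 0 - 1) * (1 - z0) := by nlinarith
    refine ⟨(tp (1 / (z0 + (2 * l 0 - 1) * (1 - z0)) - 1), z0 + (2 * l 0 - 1) * (1 - z0)),
      Or.inr ⟨by simp only; linarith, by simp only; nlinarith, rfl⟩, ?_⟩
    rw [treeLike_L, if_neg (not_le.2 hz)]
    have hne : (1 - z0) ≠ 0 := by linarith
    funext i
    fin_cases i
    · simp only [Fin.zero_eta, Matrix.cons_val_zero]
      field_simp
      ring
    · simp [e1]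
    · simp [e2]

theorem treeLike_L_dist {z0 : ℝ} (h0 : 0 < z0) (h1 : z0 < 1) {x y : E} (hx : x ∈ Xset)
    (hy : y ∈ Xset) (h : treeLike_L z0 x = treeLike_L z0 y) : dist x y ≤ z0 := by
  have hnn : ∀ w : E, w ∈ Xset → 0 ≤ w.2 := by
    rintro w (h | h)
    · exact h.1.ge
    · exact h.1.le
  have hd : 0 < 2 * (1 - z0) := by linarith
  have hle1 : ∀ w : E, w ∈ Xset → w.1 0 ≤ 1 := by
    rintro w (h | h)
    · exact (h.2.1 0).2
    · rw [h.2.2]; exact ((tp_mem _).1 0).2
  have e0 := congrFun h 0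
  have e1 := congrFun h 1
  have e2 := congrFun h 2
  have hx0 := hnn x hx
  have hy0 := hnn y hy
  rcases le_or_gt x.2 z0 with hxz | hxz <;> rcases le_or_gt y.2 z0 with hyz | hyz
  · rw [treeLike_L, treeLike_L, if_pos hxz, if_pos hyz] at e0 e1 e2
    simp only [Matrix.cons_val_zero, Matrix.cons_val_one, Matrix.cons_val] at e0 e1 e2
    have ht : x.1 = y.1 := by
      funext i
      fin_cases i
      · simp only [Fin.zero_eta]; linarith
      · exact e1
      · exact e2
    rw [Prod.dist_eq, ht, dist_self, Real.dist_eq]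
    apply max_le h0.le
    rw [abs_le]; constructor <;> linarith
  · exfalso
    rw [treeLike_L, treeLike_L, if_pos hxz, if_neg (not_le.2 hyz)] at e0
    simp only [Matrix.cons_val_zero] at e0
    have := hle1 x hx
    have : 0 < (y.2 - z0) / (2 * (1 - z0)) := div_pos (by linarith) hd
    linarith
  · exfalso
    rw [treeLike_L, treeLike_L, if_neg (not_le.2 hxz), if_pos hyz] at e0
    simp only [Matrix.cons_val_zero] at e0
    have := hle1 y hy
    have : 0 < (x.2 - z0) / (2 * (1 - z0)) := div_pos (by linarith) hd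
    linarith
  · rw [treeLike_L, treeLike_L, if_neg (not_le.2 hxz), if_neg (not_le.2 hyz)] at e0
    simp only [Matrix.cons_val_zero] at e0
    have e3 : (x.2 - z0) / (2 * (1 - z0)) = (y.2 - z0) / (2 * (1 - z0)) := by linarith
    have e4 : x.2 = y.2 := by
      have := (div_left_inj' hd.ne').1 e3
      linarith
    have e5 : x = y := by
      rcases hx with h | h
      · rw [h.1] at hxz; exact absurd hxz (not_lt.2 h0.le)
      · rcases hy with h' | h'
        · rw [h'.1] at hyz; exact absurd hyz (not_lt.2 h0.le)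
        · exact Prod.ext (by rw [h.2.2, h'.2.2, e4]) e4
    rw [e5, dist_self]; exact h0.le

theorem treeLike_Xset : IsTreeLike (↥Xset) := by
  intro ε hε
  obtain ⟨n, hn⟩ := exists_nat_gt (1 / ε)
  have hpi := Real.pi_gt_three
  have hnpos : 0 < (n : ℝ) := lt_trans (by positivity) hn
  have hden : 0 < 1 + 2 * Real.pi * n := by positivity
  set z0 : ℝ := 1 / (1 + 2 * Real.pi * n) with hz0
  have h0 : 0 < z0 := by positivity
  have h1 : z0 < 1 := by
    rw [hz0, div_lt_one hden]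
    have : 0 < 2 * Real.pi * n := by positivity
    linarith
  have hε' : z0 < ε := by
    rw [hz0, div_lt_iff₀ hden]
    rw [div_lt_iff₀ hε] at hn
    have : 0 < n * ε := by positivity
    nlinarith
  have hz : 1 / z0 - 1 = 2 * Real.pi * n := by
    rw [hz0, one_div_one_div]; ring
  refine ⟨4, SimpleGraph.starGraph 0, SimpleGraph.isTree_starGraph 0,
    fun x => ⟨treeLike_pt (treeLike_L z0 x), treeLike_pt_mem (treeLike_L_mem h0 h1 x.2)⟩, ?_, ?_, ?_⟩
  · apply Continuous.subtype_mk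
    have hc := treeLike_L_cont h0 h1 n hz
    have hp : Continuous treeLike_pt := by
      unfold treeLike_pt
      apply continuous_pi
      intro i
      fin_cases i
      · simp only [Fin.zero_eta, Matrix.cons_val_zero]; fun_prop
      · simp; fun_prop
      · simp; fun_prop
      · simp; fun_prop
    exact hp.comp hc
  · rintro ⟨y, hy⟩
    obtain ⟨l, hl, rfl⟩ := treeLike_pt_surj hy
    obtain ⟨x, hx, rfl⟩ := treeLike_L_surj h0 h1 hl
    exact ⟨⟨x, hx⟩, rfl⟩
  · intro y
    refine lt_of_le_of_lt (Metric.diam_le_of_forall_dist_le h0.le ?_) hε'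
    intro x hx x' hx'
    have : treeLike_L z0 x = treeLike_L z0 x' := by
      apply treeLike_pt_inj
      have e := (mem_singleton_iff.1 hx).trans (mem_singleton_iff.1 hx').symm
      exact congrArg Subtype.val e
    exact treeLike_L_dist h0 h1 x.2 x'.2 this


end T2

theorem Xset_connected : IsConnected Xset := by
  have h : Wset 1 0 = Xset := by
    ext x
    refine ⟨fun h => h.1, fun h => ⟨h, ?_, ?_⟩⟩
    · rcases h with h | h
      · exact h.1.ge
      · exact h.1.le
    · rcases h with h | h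
      · rw [h.1]; norm_num
      · exact h.2.1
  rw [← h]
  exact (Wset_ok (α := 1) (β := 0) le_rfl (by norm_num) le_rfl).2

theorem main_theorem : ∃ (X : Type) (_ : MetricSpace X), CompactSpace X ∧ ConnectedSpace X ∧
    IsTreeLike X ∧ ¬ FixedPointProperty (Hyper X) := by
  refine ⟨↥Xset, inferInstance, isCompact_iff_compactSpace.1 Xset_compact,
    isConnected_iff_connectedSpace.1 Xset_connected, treeLike_Xset, ?_⟩
  intro hF
  obtain ⟨g, hg, hn⟩ := transfer (S := Xset) fmap fmap_cont fmap_ne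
  obtain ⟨K, hK⟩ := hF g hg
  exact hn K hK

end Pool.Agent.Helper302.CT
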